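import Pool.Agent.H910.Vf.Defs

/-!
The discriminant form is homogeneous.
-/

set_option autoImplicit false
set_option linter.unusedSectionVars false
set_option linter.unusedVariables false

open MvPolynomial

namespace Pool.Agent.H910.Vf

theorem hyp_hom (F : Type) [Field F] {k : Type} [Field k] [Algebra k F] (n : ℕ) (s t : k) :
    (hyp F n s t).IsHomogeneous 1 := by
  unfold hyp
  refine IsHomogeneous.sum _ _ _ fun l _ => ?_
  have h1 := (isHomogeneous_C (Fin (n + 1)) (algebraMap k F (s ^ (n - (l : ℕ)) * t ^ (l : ℕ)))).mul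
    (isHomogeneous_X F l)
  rwa [zero_add] at h1

theorem coeff_sum_hom {R : Type} [CommRing R] {σ : Type} {n : ℕ} {a : Fin (n + 1) → MvPolynomial σ R}
    (ha : ∀ l, (a l).IsHomogeneous 1) (i : ℕ) :
    ((∑ l : Fin (n + 1), Polynomial.C (a l) * Polynomial.X ^ (l : ℕ)).coeff i).IsHomogeneous 1 := by
  rw [Polynomial.finsetSum_coeff]
  refine IsHomogeneous.sum _ _ _ fun l _ => ?_
  rw [Polynomial.coeff_C_mul_X_pow]
  split_ifs
  · exact ha l
  · exact isHomogeneous_zero _ _ _

theorem resultant_hom {R : Type} [CommRing R] {σ : Type} {f g : Polynomial (MvPolynomial σ R)}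
    (hf : ∀ i, (f.coeff i).IsHomogeneous 1) (hg : ∀ i, (g.coeff i).IsHomogeneous 1) (m n : ℕ) :
    (Polynomial.resultant f g m n).IsHomogeneous (m + n) := by
  unfold Polynomial.resultant
  rw [Matrix.det_apply]
  refine IsHomogeneous.sum _ _ _ fun s _ => ?_
  have h1 : (∏ i : Fin (m + n), Polynomial.sylvester f g m n (s i) i).IsHomogeneous
      (∑ _i : Fin (m + n), 1) := by
    refine IsHomogeneous.prod _ _ _ fun i _ => ?_
    unfold Polynomial.sylvester
    rw [Matrix.of_apply]
    refine Fin.addCases (fun j => ?_) (fun j => ?_) i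
    · rw [Fin.addCases_left]
      split_ifs
      · exact hg _
      · exact isHomogeneous_zero _ _ _
    · rw [Fin.addCases_right]
      split_ifs
      · exact hf _
      · exact isHomogeneous_zero _ _ _
  rw [Finset.sum_const, Finset.card_univ, Fintype.card_fin, smul_eq_mul, mul_one] at h1
  rcases Int.units_eq_one_or (Equiv.Perm.sign s) with h | h
  · rw [h, one_smul]
    exact h1
  · rw [h, Units.neg_smul, one_smul]
    exact h1.neg

theorem dsc_hom (F : Type) [Field F] (n : ℕ) : (dsc F n).IsHomogeneous (2 * n) := by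
  unfold dsc
  rw [two_mul]
  refine resultant_hom (coeff_sum_hom fun l => ?_) (coeff_sum_hom fun l => ?_) n n
  · have h1 := (isHomogeneous_C (R := F) (Fin (n + 2)) (((l : ℕ) + 1 : ℕ) : F)).mul
      (isHomogeneous_X F l.succ)
    rw [zero_add, map_natCast] at h1
    exact h1
  · have h1 := (isHomogeneous_C (R := F) (Fin (n + 2)) ((n + 1 - (l : ℕ) : ℕ) : F)).mul
      (isHomogeneous_X F l.castSucc)
    rw [zero_add, map_natCast] at h1
    exact h1

end Pool.Agent.H910.Vf
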