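import Pool.Agent.H910.Vf.Bd
import Pool.Agent.H910.Vf.Hom

/-!
Ramified maps to the space of the binary forms: the height bound, and Vojta's inequality.
-/

set_option autoImplicit false
set_option linter.unusedSectionVars false
set_option linter.unusedVariables false
set_option linter.overlappingInstances false

open FF MvPolynomial Pool.Agent.W603.LV Pool.Agent.W603.PV
open Pool.Agent.W602.GT (val IsForm coords val_smul)
open Pool.Agent.H916
open Pool.Agent.Y216 (OnVar)

namespace Pool.Agent.H910.Vf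

open Pool.Agent.Y216 Pool.Agent.H910.Dsc Pool.Agent.H910.Ff

variable {k F : Type} [Field k] [IsAlgClosed k] [CharZero k] [Field F] [Algebra k F] [IsFF k F]

theorem meets_finite {L : Type} [Field L] [Algebra k L] [Algebra F L] [IsFF k L] {M : ℕ} {ι : Type}
    {Q : ι → MvPolynomial (Fin (M + 1)) F} {f : Fin (M + 1) → L} (hf : ∃ j, f j ≠ 0)
    (hfQ : ∃ i, aeval f (Q i) ≠ 0) : {P : Place k L | Meets Q f P}.Finite := by
  obtain ⟨i, hi⟩ := hfQ
  have h4 : ((⋃ j, {P : Place k L | P.ord (f j) ≠ 0}) ∪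
      {P : Place k L | P.ord (aeval f (Q i)) ≠ 0}).Finite :=
    (Set.finite_iUnion fun j => finite_support _).union (finite_support _)
  refine h4.subset fun P hP => ?_
  by_contra hcon
  rw [Set.mem_union, not_or] at hcon
  have h5 : P.ord (aeval f (Q i)) = 0 := not_not.1 hcon.2
  have h6 : ∀ j, P.ord (f j) = 0 := fun j => by
    by_contra h7
    exact hcon.1 (Set.mem_iUnion.2 ⟨j, h7⟩)
  have h7 := (hP i).resolve_left hi
  obtain ⟨l, hl, hlo⟩ := exists_pord P hf
  rw [h5, ← hlo, h6] at h7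
  simp at h7

/-- **The height bound for ramified maps to the space of the binary forms.** -/
theorem Ramified.bound {K : Type} [Field K] [Algebra F K] {M n : ℕ} {x : Fin (M + 1) → K}
    (hx : x ≠ 0) (hgen : coords F x = ⊤) {ι : Type} {Q : ι → MvPolynomial (Fin (M + 1)) F}
    {y : Fin (n + 2) → K} (h : Ramified k x Q y) : HeightBound k x Q y := by
  classical
  obtain ⟨hdy, q, u, v, m, α, β, S, G, h0, huv, hvy, hG, hGx, hpos, h⟩ := h
  obtain ⟨i0, hi0⟩ := Function.ne_iff.1 hx
  have hi0 : x i0 ≠ 0 := hi0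
  have hF0 : CharZero F := charZero_of_injective_algebraMap (algebraMap k F).injective
  have hy : ∃ j, y j ≠ 0 := by
    by_contra hcon
    push Not at hcon
    have hq : 0 < q := by
      by_contra hq
      have : q = 0 := by omega
      subst this
      omega
    refine hvy ⟨0, hq⟩ ?_
    unfold hyp
    rw [map_sum]
    refine Finset.sum_eq_zero fun l _ => ?_
    rw [map_mul, aeval_X, hcon, mul_zero]
  obtain ⟨j0, hj0⟩ := hy
  obtain ⟨e, H, hH, hne, heq⟩ := exists_forms (k := F) hi0 hj0 (by rw [hgen]; exact le_top)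
  have hR : RMap x y j0 e H := ⟨hH, hne, hj0, heq⟩
  obtain ⟨C2, hC2⟩ := over_card.{0, 0, 0} (k := k) S
  have hdf : IsForm (dsc F n) ∧ ∀ i, IsForm (hyp F (n + 1) (u i) (v i)) := by
    refine ⟨⟨2 * n, ?_⟩, fun i => ⟨1, ?_⟩⟩
    · exact dsc_hom F n
    · exact hyp_hom F (n + 1) _ _
  refine ⟨G * (H j0 * (aeval H (dsc F n) * ∏ i, aeval H (hyp F (n + 1) (u i) (v i)))),
    isForm_mul0 hG (isForm_mul0 ⟨e, hH j0⟩ (isForm_mul0 (isForm_comp0 hH hdf.1)
      (isForm_prod0 fun i => isForm_comp0 hH (hdf.2 i)))), ?_, m * (n + 1),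
    m * (n + 1) * (C2 + 2), fun L _ _ _ _ _ f g hfg hfG hfQ => ?_⟩
  · rw [val_mul_ne0, val_mul_ne0, val_mul_ne0, val_prod_ne0]
    exact ⟨hGx, hne, fun h0 => hdy ((hR.val_iff hdf.1).1 h0),
      fun i h0 => hvy i ((hR.val_iff (hdf.2 i)).1 h0)⟩
  · rw [val_mul_ne0, val_mul_ne0, val_mul_ne0, val_prod_ne0] at hfG
    obtain ⟨hf1, hf2, hf3, hf4⟩ := hfG
    have hff : IsFF k L := isFF_of_finite (k := k) (F := F) (L := L)
    obtain ⟨c, hc0, hc⟩ := closure_smul hfg hR hf2
    have hg : ∃ j, g j ≠ 0 := (closure_on' hfg).1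
    have hgd : aeval g (dsc F n) ≠ 0 := fun h1 => hf3 (by
      rw [val_comp0]
      exact (val_scale_iff0 hc0 hc hdf.1).1 h1)
    have hgv : ∀ i, aeval g (hyp F (n + 1) (u i) (v i)) ≠ 0 := fun i h1 => hf4 i (by
      rw [val_comp0]
      exact (val_scale_iff0 hc0 hc (hdf.2 i)).1 h1)
    obtain ⟨hSfin, hScard⟩ := hC2 L
    have hmfin := meets_finite (k := k) (closure_on hfg).1 hfQ
    have h1 := bound_field h0 huv hpos hg (by rwa [← dsc_eq (F := F)])
      (fun i => by rw [← hyp_eq (F := F)]; exact hgv i)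
      (hSfin.toFinset ∪ hmfin.toFinset) fun P hP => by
        rw [Finset.mem_union, not_or, Set.Finite.mem_toFinset, Set.Finite.mem_toFinset] at hP
        obtain ⟨hP1, hP2⟩ := hP
        have hP1' : ∀ w ∈ S, ¬ Over P w := fun w hw ho => hP1 ⟨w, hw, ho⟩
        have h2 := h L f g hfg hf1 hgd hgv P hP1' hP2
        rw [zeros_eq] at h2
        unfold contact at h2
        simp only [hyp_eq, dsc_eq] at h2
        push_cast at h2
        simp only [one_mul] at h2
        have h3 : {i | 0 < P.ord (vl (u i) (v i) g) - pord P g}.ncard = (mt u v P g).card := by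
          rw [← Set.ncard_coe_finset]
          congr 1
          ext i
          unfold Pool.Agent.H910.Ff.mt
          rw [Finset.mem_coe, Finset.mem_filter]
          have h4 : vl (u i) (v i) g ≠ 0 := by
            rw [← hyp_eq (F := F)]
            exact hgv i
          constructor
          · intro h5
            exact ⟨Finset.mem_univ _, h4, sub_pos.1 h5⟩
          · rintro ⟨-, -, h5⟩
            exact sub_pos.2 h5
        rw [h3] at h2
        exact h2
    refine h1.trans ?_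
    have h2 : ((hSfin.toFinset ∪ hmfin.toFinset).card : ℤ) ≤
        C2 * Module.finrank F L + {P : Place k L | Meets Q f P}.ncard := by
      have h3 := Finset.card_union_le hSfin.toFinset hmfin.toFinset
      rw [← Set.ncard_eq_toFinset_card _ hSfin, ← Set.ncard_eq_toFinset_card _ hmfin] at h3
      have h4 : (((hSfin.toFinset ∪ hmfin.toFinset).card : ℕ) : ℤ) ≤
        ({P : Place k L | ∃ w ∈ S, Over P w}.ncard : ℤ) +
          {P : Place k L | Meets Q f P}.ncard := by exact_mod_cast h3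
      linarith
    have hn : (1 : ℤ) ≤ Module.finrank F L := by
      exact_mod_cast (Module.finrank_pos : 0 < Module.finrank F L)
    have h3 : (0 : ℤ) ≤ m * (n + 1) := by positivity
    have h4 := mul_le_mul_of_nonneg_left (add_le_add h2
      (add_le_add (le_refl (canDeg k L)) (by linarith : (2 : ℤ) ≤ 2 * Module.finrank F L))) h3
    refine h4.trans (le_of_eq ?_)
    push_cast
    ring

/-- **Maps of pairs.** -/
theorem PairMap.bound {K : Type} [Field K] [Algebra F K] {M N : ℕ} {x : Fin (M + 1) → K}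
    (hx : x ≠ 0) (hgen : coords F x = ⊤) {ι : Type} [Finite ι]
    {Q : ι → MvPolynomial (Fin (M + 1)) F}
    {y : Fin (N + 1) → K} (hy : y ≠ 0) {κ : Type} [Finite κ]
    {Q' : κ → MvPolynomial (Fin (N + 1)) F} (hQ : ∀ i, IsForm (Q i)) (hQ' : ∀ i, IsForm (Q' i))
    (hQ'y : ∃ c, aeval y (Q' c) ≠ 0) (h : PairMap x Q y Q') (hV : VojtaIneq k y Q') :
    HeightBound k x Q y := by
  classical
  obtain ⟨i0, hi0⟩ := Function.ne_iff.1 hx
  have hi0 : x i0 ≠ 0 := hi0
  obtain ⟨j0, hj0⟩ := Function.ne_iff.1 hy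
  have hj0 : y j0 ≠ 0 := hj0
  obtain ⟨e, H, hH, hne, heq⟩ := exists_forms (k := F) hi0 hj0 (by rw [hgen]; exact le_top)
  have hR : RMap x y j0 e H := ⟨hH, hne, hj0, heq⟩
  obtain ⟨G', hG', hG'y, A, C, hV⟩ := hV
  obtain ⟨c, hc⟩ := hQ'y
  obtain ⟨b, hb⟩ := PairMap.count (k := k) h hQ hQ' hR
  refine ⟨H j0 * (aeval H G' * aeval H (Q' c)), isForm_mul0 ⟨e, hH j0⟩
    (isForm_mul0 (isForm_comp0 hH hG') (isForm_comp0 hH (hQ' c))), ?_, A, A * b + C,
    fun L _ _ _ _ _ f g hfg hfG hfQ => ?_⟩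
  · rw [val_mul_ne0, val_mul_ne0]
    exact ⟨hne, fun h0 => hG'y ((hR.val_iff hG').1 h0), fun h0 => hc ((hR.val_iff (hQ' c)).1 h0)⟩
  · rw [val_mul_ne0, val_mul_ne0] at hfG
    obtain ⟨hf2, hf3, hf4⟩ := hfG
    have hff : IsFF k L := isFF_of_finite (k := k) (F := F) (L := L)
    obtain ⟨r, hr0, hr⟩ := closure_smul hfg hR hf2
    have hon := closure_on hfg
    have h1 := hV L (fun i => aeval f (H i)) (hR.on hon hf2) (by rw [← val_comp0]; exact hf3)
      ⟨c, by rw [val_comp0] at hf4; exact hf4⟩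
    have h2 := hb L f hon hf2 hfQ
    have h3 : pht k g = pht k fun i => aeval f (H i) := by
      rw [funext hr]
      exact pht_scale ⟨j0, hf2⟩ hr0
    rw [h3]
    obtain ⟨N', hN'⟩ : ∃ N' : ℤ, N' = {P : Place k L | Meets Q f P}.ncard := ⟨_, rfl⟩
    rw [← hN'] at h2 ⊢
    have h5 : (0 : ℤ) ≤ A := Int.natCast_nonneg _
    push_cast
    nlinarith

end Pool.Agent.H910.Vf
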