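import Pool.Agent.H910.Vf.Defs

/-!
The height bound for ramified maps to the space of the binary forms.
-/

set_option autoImplicit false
set_option linter.unusedSectionVars false
set_option linter.unusedVariables false

open FF MvPolynomial Pool.Agent.W603.LV Pool.Agent.W603.PV
open Pool.Agent.W602.GT (val IsForm coords val_smul)
open Pool.Agent.H916 (InClosure Meets RMap)
open Pool.Agent.Y216 (OnVar)

namespace Pool.Agent.H910.Vf

open Pool.Agent.Y216 Pool.Agent.H910.Dsc Pool.Agent.H910.Ff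

section basic

variable {k F L : Type} [Field k] [Field F] [Algebra k F] [Field L] [Algebra k L] [Algebra F L]

theorem hyp_eq [IsScalarTower k F L] {n : ℕ} (s t : k) (g : Fin (n + 1) → L) :
    aeval g (hyp F n s t) = vl s t g := by
  unfold hyp vl
  rw [map_sum]
  refine Finset.sum_congr rfl fun l _ => ?_
  rw [map_mul, aeval_C, aeval_X, ← IsScalarTower.algebraMap_apply]

theorem dsc_eq' {n : ℕ} (g : Fin (n + 2) → L) :
    aeval g (dsc F n) = bdisc g := by
  have h1 := map_bdisc (aeval g : MvPolynomial (Fin (n + 2)) F →ₐ[F] L).toRingHom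
      fun j : Fin (n + 2) => (X j : MvPolynomial (Fin (n + 2)) F)
  refine h1.trans ?_
  congr 1
  funext j
  exact aeval_X g j

theorem dsc_eq {n : ℕ} (g : Fin (n + 2) → L) :
    aeval g (dsc F n) = dsf n (pol g) := (dsc_eq' g).trans (bdisc_eq g)

theorem zeros_eq {n : ℕ} (P : Place k L) (g : Fin (n + 1) → L) : zeros P g = zst P g := by
  ext z
  unfold zeros zst
  rw [Set.mem_ofPred_eq, Set.mem_ofPred_eq, hyp_eq]
  unfold contact
  rw [hyp_eq]
  cases z with
  | none =>
    change (vl 0 1 g = 0 ∨ 0 < P.ord (vl 0 1 g) - (1 : ℕ) * pord P g) ↔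
      (vl 0 1 g = 0 ∨ pord P g < P.ord (vl 0 1 g))
    push_cast
    rw [one_mul, sub_pos]
  | some c =>
    change (vl 1 c g = 0 ∨ 0 < P.ord (vl 1 c g) - (1 : ℕ) * pord P g) ↔
      (vl 1 c g = 0 ∨ pord P g < P.ord (vl 1 c g))
    push_cast
    rw [one_mul, sub_pos]

end basic

section closure

variable {F K : Type} [Field F] [Field K] [Algebra F K] {M N : ℕ} {x : Fin (M + 1) → K}
  {y : Fin (N + 1) → K} {E : Type} [Field E] [Algebra F E] {f : Fin (M + 1) → E}
  {g : Fin (N + 1) → E}

theorem closure_ne (h : InClosure F x y f g) : ∃ i j, f i ≠ 0 ∧ g j ≠ 0 ∧ x i ≠ 0 ∧ y j ≠ 0 ∧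
    ∀ Φ : MvPolynomial (Fin (M + 1) ⊕ Fin (N + 1)) F,
      aeval (Sum.elim (fun a => x a / x i) fun b => y b / y j) Φ = 0 →
        aeval (Sum.elim (fun a => f a / f i) fun b => g b / g j) Φ = 0 := by
  obtain ⟨i, j, hi, hj, h⟩ := h
  refine ⟨i, j, hi, hj, fun h0 => ?_, fun h0 => ?_, h⟩
  · have h1 := h (X (Sum.inl i)) (by rw [aeval_X, Sum.elim_inl, h0, div_zero])
    rw [aeval_X, Sum.elim_inl, div_self hi] at h1
    exact one_ne_zero h1
  · have h1 := h (X (Sum.inr j)) (by rw [aeval_X, Sum.elim_inr, h0, div_zero])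
    rw [aeval_X, Sum.elim_inr, div_self hj] at h1
    exact one_ne_zero h1

/-- homogenous version of division -/
theorem aeval_div {R : Type} [Field R] [Algebra F R] {M : ℕ} {d : ℕ}
    {H : MvPolynomial (Fin (M + 1)) F} (hH : H.IsHomogeneous d) {u : Fin (M + 1) → R} {c : R}
    (hc : c ≠ 0) : aeval (fun a => u a / c) H = aeval u H / c ^ d := by
  have h1 := val_smul hH c (fun a => u a / c)
  have h3 : (fun i => c * (u i / c)) = u := by
    funext i
    field_simp
  rw [h3] at h1
  unfold Pool.Agent.W602.GT.val at h1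
  rw [h1, mul_div_cancel_left₀ _ (pow_ne_zero _ hc)]

theorem closure_on (h : InClosure F x y f g) : OnVar F x f := by
  obtain ⟨i, j, hi, hj, hxi, hyj, h⟩ := closure_ne h
  refine ⟨⟨i, hi⟩, fun H hH hx => ?_⟩
  obtain ⟨d, hd⟩ := hH
  have h1 := h (rename Sum.inl H) (by
    rw [aeval_rename]
    change aeval (fun a => x a / x i) H = 0
    rw [aeval_div hd hxi]
    have : aeval x H = 0 := hx
    rw [this, zero_div])
  rw [aeval_rename] at h1
  change aeval (fun a => f a / f i) H = 0 at h1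
  rw [aeval_div hd hi, div_eq_zero_iff] at h1
  exact h1.resolve_right (pow_ne_zero _ hi)

theorem closure_on' (h : InClosure F x y f g) : OnVar F y g := by
  obtain ⟨i, j, hi, hj, hxi, hyj, h⟩ := closure_ne h
  refine ⟨⟨j, hj⟩, fun H hH hx => ?_⟩
  obtain ⟨d, hd⟩ := hH
  have h1 := h (rename Sum.inr H) (by
    rw [aeval_rename]
    change aeval (fun a => y a / y j) H = 0
    rw [aeval_div hd hyj]
    have : aeval y H = 0 := hx
    rw [this, zero_div])
  rw [aeval_rename] at h1
  change aeval (fun a => g a / g j) H = 0 at h1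
  rw [aeval_div hd hj, div_eq_zero_iff] at h1
  exact h1.resolve_right (pow_ne_zero _ hj)

/-- The image point is given by the forms. -/
theorem closure_smul (h : InClosure F x y f g) {j0 : Fin (N + 1)} {e : ℕ}
    {H : Fin (N + 1) → MvPolynomial (Fin (M + 1)) F} (hH : RMap x y j0 e H)
    (hf : aeval f (H j0) ≠ 0) : ∃ c : E, c ≠ 0 ∧ ∀ b, g b = c * aeval f (H b) := by
  obtain ⟨i, j, hi, hj, hxi, hyj, h⟩ := closure_ne h
  -- relations
  have hrel : ∀ b b', aeval f (H b') * g b = aeval f (H b) * g b' := by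
    intro b b'
    have h1 := h (X (Sum.inr b) * rename Sum.inl (H b') - X (Sum.inr b') * rename Sum.inl (H b)) (by
      rw [map_sub, map_mul, map_mul, aeval_X, aeval_X, aeval_rename, aeval_rename]
      change y b / y j * aeval (fun a => x a / x i) (H b') -
        y b' / y j * aeval (fun a => x a / x i) (H b) = 0
      rw [aeval_div (hH.hom _) hxi, aeval_div (hH.hom _) hxi]
      have h2 : ∀ b, y b = y j0 / aeval x (H j0) * aeval x (H b) := by
        intro b
        have h3 := hH.eq b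
        have h4 := hH.ne
        have h5 := hH.ny
        field_simp at h3 ⊢
        linear_combination h3
      rw [h2 b, h2 b']
      ring)
    rw [map_sub, map_mul, map_mul, aeval_X, aeval_X, aeval_rename, aeval_rename] at h1
    change g b / g j * aeval (fun a => f a / f i) (H b') -
        g b' / g j * aeval (fun a => f a / f i) (H b) = 0 at h1
    rw [aeval_div (hH.hom _) hi, aeval_div (hH.hom _) hi] at h1
    have h2 : f i ^ e ≠ 0 := pow_ne_zero _ hi
    field_simp at h1
    linear_combination h1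
  have hj' : aeval f (H j) ≠ 0 := by
    intro h0
    have h1 := hrel j j0
    rw [h0, zero_mul] at h1
    exact (mul_ne_zero hf hj) h1
  refine ⟨g j / aeval f (H j), div_ne_zero hj hj', fun b => ?_⟩
  have h1 := hrel b j
  field_simp
  linear_combination h1

end closure

section sums

variable {k : Type} [Field k] [CharZero k] [IsAlgClosed k] {L : Type} [Field L] [Algebra k L]
  [IsFF k L]

theorem pord_nonneg_contact {n : ℕ} (P : Place k L) {s t : k} {g : Fin (n + 1) → L}
    (h : vl s t g ≠ 0) : pord P g ≤ P.ord (vl s t g) := by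
  have := pord_le_lv P (rnc n (fun _ : Fin 1 => s) (fun _ => t) 0) (f := g)
    (show lv (rnc n (fun _ : Fin 1 => s) (fun _ => t) 0) g ≠ 0 from h)
  exact this

open Classical in
/-- **The height bound for one field.** -/
theorem bound_field' {n q : ℕ} {u v : Fin q → k} (h0 : ∀ i, u i ≠ 0 ∨ v i ≠ 0)
    (huv : ∀ i j, i ≠ j → u i * v j ≠ u j * v i) {m : ℕ} {α : Fin q → ℕ} {β : ℕ}
    {g : Fin (n + 2) → L} (hg : ∃ j, g j ≠ 0)
    (hd : dsf n (pol g) ≠ 0) (hv : ∀ i, vl (u i) (v i) g ≠ 0) (B : Finset (Place k L))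
    (hB : ∀ P, P ∉ B → (m : ℤ) * ((n : ℤ) + 1 - (zst P g).ncard + (mt u v P g).card) ≤
      ∑ i, α i * (P.ord (vl (u i) (v i) g) - pord P g) +
        β * (P.ord (dsf n (pol g)) - 2 * n * pord P g)) :
    (m * (q - 2) - ((∑ i, α i + 2 * n * β : ℕ) : ℤ)) * pht k g ≤
      m * (n + 1) * (B.card + (canDeg k L + 2)) := by
  have hchL : CharZero L := charZero_of_injective_algebraMap (algebraMap k L).injective
  obtain ⟨hsq, hdeg⟩ := disc_sqf hg hd
  obtain ⟨n', T0, hn', hT0⟩ := ineq h0 huv hsq hdeg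
  obtain ⟨T1, hT1⟩ := exists_supp (k := k) Finset.univ g
  obtain ⟨T2, hT2⟩ := exists_supp (k := k) Finset.univ fun i => vl (u i) (v i) g
  obtain ⟨T3, hT3⟩ := exists_supp (k := k) (Finset.univ : Finset (Fin 1)) fun _ => dsf n (pol g)
  obtain ⟨T, hT⟩ : ∃ T, T = T0 ∪ T1 ∪ T2 ∪ T3 ∪ B := ⟨_, rfl⟩
  have h1 := hT0 T (by
    rw [hT]
    intro P hP
    simp [hP])
  have hp : ∀ P : Place k L, pord P g ≠ 0 → P ∈ T := by
    intro P hP
    obtain ⟨j, _, hj⟩ := exists_pord P hg
    rw [← hj] at hP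
    have := hT1 j (Finset.mem_univ _) P hP
    rw [hT]
    simp [this]
  have hvT : ∀ i, ∀ P : Place k L, P.ord (vl (u i) (v i) g) ≠ 0 → P ∈ T := by
    intro i P hP
    have := hT2 i (Finset.mem_univ _) P hP
    rw [hT]
    simp [this]
  have hdT : ∀ P : Place k L, P.ord (dsf n (pol g)) ≠ 0 → P ∈ T := by
    intro P hP
    have := hT3 0 (Finset.mem_univ _) P hP
    rw [hT]
    simp [this]
  have hs1 : ∑ P ∈ T, pord P g = - pht k g := by
    unfold pht
    rw [neg_neg, finsum_eq_sum_of_support_subset (s := T)]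
    intro P hP
    exact Finset.mem_coe.2 (hp P hP)
  have hs2 : ∀ i, ∑ P ∈ T, (P.ord (vl (u i) (v i) g) - pord P g) = pht k g := by
    intro i
    rw [Finset.sum_sub_distrib, sum_ord_finset _ T (hvT i), hs1]
    ring
  have hs3 : ∑ P ∈ T, (P.ord (dsf n (pol g)) - 2 * n * pord P g) = 2 * n * pht k g := by
    rw [Finset.sum_sub_distrib, sum_ord_finset _ T hdT, ← Finset.mul_sum, hs1]
    ring
  have hs4 : ∑ P ∈ T, (∑ i, α i * (P.ord (vl (u i) (v i) g) - pord P g) +
        β * (P.ord (dsf n (pol g)) - 2 * n * pord P g)) =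
      ((∑ i, α i + 2 * n * β : ℕ) : ℤ) * pht k g := by
    rw [Finset.sum_add_distrib, Finset.sum_comm, ← Finset.mul_sum, hs3]
    have : ∀ i ∈ (Finset.univ : Finset (Fin q)),
        ∑ P ∈ T, (α i : ℤ) * (P.ord (vl (u i) (v i) g) - pord P g) = α i * pht k g := by
      intro i _
      rw [← Finset.mul_sum, hs2]
    rw [Finset.sum_congr rfl this, ← Finset.sum_mul]
    push_cast
    ring
  have hloc : ∀ P ∈ T, (m : ℤ) * (((n + 1 : ℕ) : ℤ) - (zst P g).ncard + (mt u v P g).card) ≤
      (∑ i, α i * (P.ord (vl (u i) (v i) g) - pord P g) +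
        β * (P.ord (dsf n (pol g)) - 2 * n * pord P g)) +
          if P ∈ B then (m : ℤ) * (n + 1) else 0 := by
    intro P _
    by_cases hPB : P ∈ B
    · rw [if_pos hPB]
      have h2 := mt_le h0 huv P hg
      have h3 : (0 : ℤ) ≤ ∑ i, α i * (P.ord (vl (u i) (v i) g) - pord P g) :=
        Finset.sum_nonneg fun i _ => mul_nonneg (Int.natCast_nonneg _)
          (sub_nonneg.2 (pord_nonneg_contact P (hv i)))
      have h4 := zst_ge P hg hd
      have h5 := zst_le P hg
      have h6 : (0 : ℤ) ≤ β * (P.ord (dsf n (pol g)) - 2 * n * pord P g) := by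
        refine mul_nonneg (Int.natCast_nonneg _) ?_
        omega
      have h7 : (m : ℤ) * (((n + 1 : ℕ) : ℤ) - (zst P g).ncard + (mt u v P g).card) ≤
          m * (n + 1) := by
        refine mul_le_mul_of_nonneg_left ?_ (Int.natCast_nonneg _)
        push_cast
        omega
      linarith
    · rw [if_neg hPB, add_zero]
      have := hB P hPB
      push_cast
      exact this
  have h2 := Finset.sum_le_sum hloc
  rw [Finset.sum_add_distrib, hs4, ← Finset.mul_sum] at h2
  have h3 : ∑ P ∈ T, (if P ∈ B then (m : ℤ) * (n + 1) else 0) = m * (n + 1) * B.card := by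
    rw [← Finset.sum_filter, Finset.sum_const, nsmul_eq_mul]
    have : T.filter (fun P => P ∈ B) = B := by
      ext P
      rw [Finset.mem_filter]
      refine ⟨fun h => h.2, fun h => ⟨?_, h⟩⟩
      rw [hT]
      simp [h]
    rw [this]
    ring
  rw [h3] at h2
  have h4 := mul_le_mul_of_nonneg_left h1 (Int.natCast_nonneg m)
  have hcan : -2 ≤ canDeg k L := Pool.Agent.H916.canDeg_ge_neg_two
  have h5 : (m : ℤ) * (n' * canDeg k L) ≤ m * ((n + 1) * (canDeg k L + 2)) := by
    refine mul_le_mul_of_nonneg_left ?_ (Int.natCast_nonneg m)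
    have h6 : (n' : ℤ) * (canDeg k L + 2) ≤ (n + 1) * (canDeg k L + 2) :=
      mul_le_mul_of_nonneg_right (by exact_mod_cast hn') (by linarith)
    have h7 : (0 : ℤ) ≤ n' := Int.natCast_nonneg _
    linarith
  rw [mul_add] at h4
  linarith

open Classical in
/-- **The height bound for one field.** -/
theorem bound_field {n q : ℕ} {u v : Fin q → k} (h0 : ∀ i, u i ≠ 0 ∨ v i ≠ 0)
    (huv : ∀ i j, i ≠ j → u i * v j ≠ u j * v i) {m : ℕ} {α : Fin q → ℕ} {β : ℕ}
    (hpos : ∑ i, α i + 2 * n * β + 2 * m < q * m) {g : Fin (n + 2) → L} (hg : ∃ j, g j ≠ 0)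
    (hd : dsf n (pol g) ≠ 0) (hv : ∀ i, vl (u i) (v i) g ≠ 0) (B : Finset (Place k L))
    (hB : ∀ P, P ∉ B → (m : ℤ) * ((n : ℤ) + 1 - (zst P g).ncard + (mt u v P g).card) ≤
      ∑ i, α i * (P.ord (vl (u i) (v i) g) - pord P g) +
        β * (P.ord (dsf n (pol g)) - 2 * n * pord P g)) :
    pht k g ≤ m * (n + 1) * (B.card + (canDeg k L + 2)) := by
  have h8 := bound_field' h0 huv hg hd hv B hB
  have hh : 0 ≤ pht k g := pht_nonneg' hg
  have hpos' : (1 : ℤ) ≤ m * (q - 2) - ((∑ i, α i + 2 * n * β : ℕ) : ℤ) := by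
    have : ((∑ i, α i + 2 * n * β + 2 * m : ℕ) : ℤ) < ((q * m : ℕ) : ℤ) := by exact_mod_cast hpos
    push_cast at this ⊢
    linarith
  nlinarith

end sums

end Pool.Agent.H910.Vf
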