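import Pool.Agent.H910.Vf.Voj

/-!
The class of pairs which are built from hyperbolic curves and ramified maps to the spaces of the
binary forms.
-/

set_option autoImplicit false
set_option linter.unusedSectionVars false
set_option linter.unusedVariables false
set_option linter.overlappingInstances false

open FF MvPolynomial Pool.Agent.W603.LV Pool.Agent.W603.PV
open Pool.Agent.W602.GT (val IsForm coords val_smul LogGeneralType)
open Pool.Agent.H916
open Pool.Agent.Y216 (OnVar)

namespace Pool.Agent.H910.Vf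

/-- The smallest class of pairs `(X, D)` over `F`, where `X` is a projective variety over `F` with
the generic point `x` and `D` is a proper closed subset given by forms `Q i`, such that `(X, D)`
belongs to the class whenever there are finitely many members `(Y l, D' l)` of the class and
dominant rational maps of pairs from `(X, D)` to `(Y l, D' l)` (given by embeddings `φ l` of the
function fields), and finitely many ramified maps `z l` from `X` to spaces of binary forms, such that
the map from `X` to the product of the `Y l` and of these spaces has relative dimension zero over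
its image, or its geometric generic fibre is a curve which is hyperbolic after removing the points
of `D`. -/
inductive Iterated (k F : Type) [Field k] [Field F] [Algebra k F] :
    ∀ {K : Type} [Field K] [Algebra F K] {M : ℕ} (_ : Fin (M + 1) → K) {ι : Type}
      (_ : ι → MvPolynomial (Fin (M + 1)) F), Prop
  | step {K : Type} [Field K] [Algebra F K] {M : ℕ} {x : Fin (M + 1) → K} {ι : Type} [Finite ι]
      {Q : ι → MvPolynomial (Fin (M + 1)) F} {r r' : ℕ} {B : Fin r → Type}
      [iB : ∀ l, Field (B l)] [iA : ∀ l, Algebra F (B l)] {N : Fin r → ℕ}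
      {y : ∀ l, Fin (N l + 1) → B l} {κ : Fin r → Type}
      {Q' : ∀ l, κ l → MvPolynomial (Fin (N l + 1)) F} {n : Fin r' → ℕ}
      {z : ∀ l, Fin (n l + 2) → K} (hx : x ≠ 0)
      (hgen : coords F x = ⊤) (hQ : ∀ i, IsForm (Q i)) (hQx : ∃ i, aeval x (Q i) ≠ 0)
      (hY : ∀ l, Iterated k F (y l) (Q' l)) (φ : ∀ l, B l →ₐ[F] K)
      (hmap : ∀ l, PairMap x Q (fun j => φ l (y l j)) (Q' l))
      (hz : ∀ l, Ramified k x Q (z l))
      (h : LogHypFibres ((⨆ l, (φ l).fieldRange) ⊔ ⨆ l, coords F (z l)).toSubfield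
        (cuspFun x Q)) : Iterated k F x Q

theorem Iterated.facts {k F : Type} [Field k] [Field F] [Algebra k F] {K : Type} [Field K]
    [Algebra F K] {M : ℕ} {x : Fin (M + 1) → K}
    {ι : Type} {Q : ι → MvPolynomial (Fin (M + 1)) F} (h : Iterated k F x Q) :
    x ≠ 0 ∧ coords F x = ⊤ ∧ Finite ι ∧ (∀ i, IsForm (Q i)) ∧ ∃ i, aeval x (Q i) ≠ 0 := by
  obtain ⟨hx, hgen, hQ, hQx, -, -, -, -, -⟩ := h
  exact ⟨hx, hgen, inferInstance, hQ, hQx⟩

section

variable {k F : Type} [Field k] [IsAlgClosed k] [CharZero k] [Field F] [Algebra k F] [IsFF k F]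

theorem Ramified.ne {K : Type} [Field K] [Algebra F K] {M n : ℕ} {x : Fin (M + 1) → K}
    {ι : Type} {Q : ι → MvPolynomial (Fin (M + 1)) F}
    {y : Fin (n + 2) → K} (h : Ramified k x Q y) : y ≠ 0 := by
  obtain ⟨hdy, q, u, v, m, α, β, S, G, h0, huv, hvy, hG, hGx, hpos, h⟩ := h
  intro hcon
  have hq : 0 < q := by
    by_contra hq
    have : q = 0 := by omega
    subst this
    omega
  refine hvy ⟨0, hq⟩ ?_
  unfold hyp
  rw [map_sum]
  refine Finset.sum_eq_zero fun l _ => ?_
  rw [map_mul, aeval_X, hcon, Pi.zero_apply, mul_zero]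

/-- **Ascent.** -/
theorem ascend {K : Type} [Field K] [Algebra F K] {M : ℕ} {x : Fin (M + 1) → K} (hx : x ≠ 0)
    (hgen : coords F x = ⊤) {ι : Type} [Finite ι] {Q : ι → MvPolynomial (Fin (M + 1)) F}
    (hQ : ∀ i, IsForm (Q i)) (hQx : ∃ i, aeval x (Q i) ≠ 0) {r r' : ℕ} {B : Fin r → Type}
    [iB : ∀ l, Field (B l)] [iA : ∀ l, Algebra F (B l)] {N : Fin r → ℕ}
    {y : ∀ l, Fin (N l + 1) → B l} {κ : Fin r → Type}
    {Q' : ∀ l, κ l → MvPolynomial (Fin (N l + 1)) F} {n : Fin r' → ℕ}
    {z : ∀ l, Fin (n l + 2) → K}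
    (hY : ∀ l, y l ≠ 0 ∧ coords F (y l) = ⊤ ∧ Finite (κ l) ∧ (∀ c, IsForm (Q' l c)) ∧
        ∃ c, aeval (y l) (Q' l c) ≠ 0) (φ : ∀ l, B l →ₐ[F] K)
    (hmap : ∀ l, PairMap x Q (fun j => φ l (y l j)) (Q' l))
    (hz : ∀ l, Ramified k x Q (z l))
    (h : LogHypFibres ((⨆ l, (φ l).fieldRange) ⊔ ⨆ l, coords F (z l)).toSubfield
        (cuspFun x Q)) (hV : ∀ l, VojtaIneq k (y l) (Q' l)) : VojtaIneq k x Q := by
  classical
  have hy : ∀ l, (fun i => φ l (y l i)) ≠ 0 := by
    intro l h0
    apply (hY l).1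
    funext i
    have h1 := congrFun h0 i
    exact (φ l).injective (by rw [Pi.zero_apply, map_zero]; exact h1)
  have hB1 : ∀ l, HeightBound k x Q fun i => φ l (y l i) := by
    intro l
    have hκ := (hY l).2.2.1
    obtain ⟨c, hc⟩ := (hY l).2.2.2.2
    exact PairMap.bound hx hgen (hy l) hQ (hY l).2.2.2.1
      ⟨c, fun h0 => hc ((val_hom_eq (φ l) (y l) (Q' l c)).1 h0)⟩ (hmap l) (vojta_hom (φ l) (hV l))
  have hB2 : ∀ l, HeightBound k x Q (z l) := fun l => (hz l).bound hx hgen
  -- the two families together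
  let NN : Fin r ⊕ Fin r' → ℕ := Sum.elim N fun l => n l + 1
  let YY : ∀ s : Fin r ⊕ Fin r', Fin (NN s + 1) → K :=
    fun s => Sum.rec (motive := fun s => Fin (NN s + 1) → K) (fun l i => φ l (y l i))
      (fun l => z l) s
  let e : Fin (Fintype.card (Fin r ⊕ Fin r')) ≃ Fin r ⊕ Fin r' := (Fintype.equivFin _).symm
  have hYY : ∀ s, YY s ≠ 0 ∧ HeightBound k x Q (YY s) := by
    rintro (l | l)
    · exact ⟨hy l, hB1 l⟩
    · exact ⟨(hz l).ne, hB2 l⟩
  have hsup : (⨆ s, coords F (YY (e s))) = (⨆ l, (φ l).fieldRange) ⊔ ⨆ l, coords F (z l) := by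
    rw [Equiv.iSup_comp (g := fun s => coords F (YY s)) e, iSup_sum]
    congr 1
    congr 1
    funext l
    change coords F (fun i => φ l (y l i)) = _
    rw [coords_map, (hY l).2.1, ← AlgHom.fieldRange_eq_map]
  exact vojta_of_bounds (y := fun s => YY (e s)) hx hgen hQ hQx (fun s => (hYY (e s)).1)
    (by rw [hsup]; exact h) fun s => (hYY (e s)).2

/-- Vojta's inequality for all members of the class. -/
theorem Iterated.vojta {K : Type} [Field K] [Algebra F K] {M : ℕ} {x : Fin (M + 1) → K}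
    {ι : Type} {Q : ι → MvPolynomial (Fin (M + 1)) F} (h : Iterated k F x Q) :
    VojtaIneq k x Q := by
  induction h with
  | @step K _ _ M x ι _ Q r r' B iB iA N y κ Q' n z hx hgen hQ hQx hY φ hmap hz h ih =>
    exact ascend hx hgen hQ hQx (fun l => (hY l).facts) φ hmap hz h ih

end

end Pool.Agent.H910.Vf
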