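import Pool.Agent.H910.Vf.Cls

/-!
A numerical criterion for ramified maps to the space of the binary forms.
-/

set_option autoImplicit false
set_option linter.unusedSectionVars false
set_option linter.unusedVariables false
set_option linter.overlappingInstances false

open FF MvPolynomial Pool.Agent.W603.LV Pool.Agent.W603.PV
open Pool.Agent.W602.GT (val IsForm coords val_smul LogGeneralType)
open Pool.Agent.H916
open Pool.Agent.Y216 (OnVar)

namespace Pool.Agent.H910.Vf

section places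

variable {k F L : Type} [Field k] [IsAlgClosed k] [CharZero k] [Field F] [Algebra k F] [IsFF k F]
  [Field L] [Algebra k L] [IsFF k L] [Algebra F L] [IsScalarTower k F L] [FiniteDimensional F L]

theorem over_under (P : Place k L) : Over P (under F P) := by
  intro x hx
  rw [ord_under]
  have h3 : (0 : ℤ) < ram F P := by exact_mod_cast (ram_spec (F := F) P).1
  positivity

/-- The places outside of the support of finitely many functions. -/
theorem exists_places (T : Finset F) : ∃ S : Finset (Place k F), ∀ (L : Type) [Field L]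
    [Algebra k L] [Algebra F L] [IsScalarTower k F L] [FiniteDimensional F L] (P : Place k L),
    (∀ w ∈ S, ¬ Over P w) → ∀ c ∈ T, P.ord (algebraMap F L c) = 0 := by
  classical
  have hfin : {w : Place k F | ∃ c ∈ T, w.ord c ≠ 0}.Finite := by
    have h4 : (⋃ c ∈ T, {w : Place k F | w.ord c ≠ 0}).Finite :=
      Set.Finite.biUnion T.finite_toSet fun c _ => finite_support _
    refine h4.subset fun P hP => ?_
    obtain ⟨c, hc, hP⟩ := hP
    exact Set.mem_biUnion hc hP
  refine ⟨hfin.toFinset, fun L _ _ _ _ _ P hP c hc => ?_⟩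
  have hff : IsFF k L := isFF_of_finite (k := k) (F := F) (L := L)
  by_contra hcon
  rw [ord_under] at hcon
  refine hP (under F P) ?_ (over_under P)
  rw [Set.Finite.mem_toFinset]
  exact ⟨c, hc, right_ne_zero_of_mul hcon⟩

end places

section kummer

variable {F K : Type} [Field F] [Field K] [Algebra F K] {M N : ℕ} {x : Fin (M + 1) → K}
  {y : Fin (N + 1) → K}

/-- The specialisation of roots. -/
theorem kummer (hx : x ≠ 0) (hgen : coords F x = ⊤) (hy : y ≠ 0) {m e' : ℕ} (hm : 0 < m)
    {Ψ : MvPolynomial (Fin (N + 1)) F} (hΨ : Ψ.IsHomogeneous (e' * m)) {w : K}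
    (hw : w ^ m = aeval y Ψ) :
    ∃ G : MvPolynomial (Fin (M + 1)) F, IsForm G ∧ val x G ≠ 0 ∧ ∀ (E : Type) [Field E]
      [Algebra F E] (f : Fin (M + 1) → E) (g : Fin (N + 1) → E), InClosure F x y f g →
        val f G ≠ 0 → ∃ W : E, W ^ m = aeval g Ψ := by
  classical
  obtain ⟨i0, hi0⟩ := Function.ne_iff.1 hx
  have hi0 : x i0 ≠ 0 := hi0
  obtain ⟨j0, hj0⟩ := Function.ne_iff.1 hy
  have hj0 : y j0 ≠ 0 := hj0
  obtain ⟨e, H, hH, hne, heq⟩ := exists_forms (k := F) hi0 hj0 (by rw [hgen]; exact le_top)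
  have hR : RMap x y j0 e H := ⟨hH, hne, hj0, heq⟩
  obtain ⟨r, hr⟩ : ∃ r : K, r = y j0 / aeval x (H j0) := ⟨_, rfl⟩
  have hr0 : r ≠ 0 := by
    rw [hr]
    exact div_ne_zero hj0 hne
  have hyr : y = fun b => r * aeval x (H b) := by
    funext b
    have h3 := heq b
    rw [hr]
    field_simp at h3 ⊢
    linear_combination h3
  obtain ⟨w', hw'⟩ : ∃ w' : K, w' = w / (r ^ e' * x i0 ^ (e * e')) := ⟨_, rfl⟩
  obtain ⟨a, H', hH', hne', heq'⟩ := exists_forms (k := F) (y := ![1, w']) (j0 := 0) hi0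
    (by simp) (by rw [hgen]; exact le_top)
  have h1 := heq' 1
  simp only [Matrix.cons_val_one, Matrix.cons_val_zero, div_one, Matrix.cons_val_fin_one] at h1
  -- the form
  have hcomp : (aeval H Ψ : MvPolynomial (Fin (M + 1)) F).IsHomogeneous (e * (e' * m)) :=
    hΨ.aeval H hH
  have hform : IsForm (H' 1 ^ m * X i0 ^ (e * e' * m) - H' 0 ^ m * aeval H Ψ) := by
    refine ⟨a * m + e * e' * m, ?_⟩
    refine IsHomogeneous.sub ?_ ?_
    · have h2 := ((hH' 1).pow m).mul ((isHomogeneous_X F i0).pow (e * e' * m))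
      rwa [one_mul] at h2
    · have h2 := ((hH' 0).pow m).mul hcomp
      rwa [← mul_assoc e e' m] at h2
  have hval : val x (H' 1 ^ m * X i0 ^ (e * e' * m) - H' 0 ^ m * aeval H Ψ) = 0 := by
    have h2 : aeval y Ψ = r ^ (e' * m) * aeval x (aeval H Ψ) := by
      have h3 := val_comp0 x H Ψ
      unfold Pool.Agent.W602.GT.val at h3
      rw [h3, hyr]
      exact val_smul hΨ r fun b => aeval x (H b)
    unfold Pool.Agent.W602.GT.val
    rw [map_sub, map_mul, map_mul, map_pow, map_pow, map_pow, aeval_X]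
    have h3 : w = aeval x (H' 1) / aeval x (H' 0) * (r ^ e' * x i0 ^ (e * e')) := by
      rw [← h1, hw', div_mul_cancel₀]
      exact mul_ne_zero (pow_ne_zero _ hr0) (pow_ne_zero _ hi0)
    rw [h3, h2] at hw
    have h4 : r ^ (e' * m) ≠ 0 := pow_ne_zero _ hr0
    have h5 : aeval x (H' 0) ≠ 0 := hne'
    rw [mul_pow, div_pow, mul_pow, ← pow_mul, ← pow_mul] at hw
    field_simp at hw
    linear_combination hw
  refine ⟨H' 0 * H j0, isForm_mul0 ⟨a, hH' 0⟩ ⟨e, hH j0⟩, ?_, fun E _ _ f g hfg hfG => ?_⟩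
  · rw [val_mul_ne0]
    exact ⟨hne', hne⟩
  · rw [val_mul_ne0] at hfG
    obtain ⟨hf1, hf2⟩ := hfG
    obtain ⟨c, hc0, hc⟩ := closure_smul hfg hR hf2
    have h2 := (closure_on hfg).2 _ hform hval
    unfold Pool.Agent.W602.GT.val at h2 hf1
    rw [map_sub, map_mul, map_mul, map_pow, map_pow, map_pow, aeval_X, sub_eq_zero] at h2
    have h3 : aeval g Ψ = c ^ (e' * m) * aeval f (aeval H Ψ) := by
      have h3 := val_comp0 f H Ψ
      unfold Pool.Agent.W602.GT.val at h3
      rw [h3, funext hc]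
      exact val_smul hΨ c fun b => aeval f (H b)
    refine ⟨c ^ e' * (aeval f (H' 1) * f i0 ^ (e * e') / aeval f (H' 0)), ?_⟩
    rw [h3, mul_pow, div_pow, mul_pow, ← pow_mul, ← pow_mul, h2]
    have h4 : aeval f (H' 0) ^ m ≠ 0 := pow_ne_zero _ hf1
    field_simp

end kummer

end Pool.Agent.H910.Vf
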