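import Pool.Agent.H910.Ff.Fin
import Pool.Agent.H916.LVoj

/-!
Rational maps from pairs over a function field to the space of the binary forms.
-/

set_option autoImplicit false

open FF MvPolynomial Pool.Agent.W603.LV Pool.Agent.W603.PV
open Pool.Agent.W602.GT (val IsForm coords)
open Pool.Agent.H916 (InClosure Meets)

namespace Pool.Agent.H910.Vf

/-- The linear form on `P^n`, the space of the binary forms `∑ l, x l * S ^ (n - l) * T ^ l`, whose
zeros are the binary forms which vanish at the point `(s : t)` of the projective line over `k`. -/
noncomputable def hyp (F : Type) [Field F] {k : Type} [Field k] [Algebra k F] (n : ℕ) (s t : k) :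
    MvPolynomial (Fin (n + 1)) F :=
  ∑ l : Fin (n + 1), C (algebraMap k F (s ^ (n - (l : ℕ)) * t ^ (l : ℕ))) * X l

/-- The form of degree `2 * n` on `P^(n + 1)` whose zeros are the binary forms of degree `n + 1` with
a multiple zero: up to a constant factor the discriminant, namely the resultant of the two partial
derivatives of `∑ l, X l * S ^ (n + 1 - l) * T ^ l`. -/
noncomputable def dsc (F : Type) [Field F] (n : ℕ) : MvPolynomial (Fin (n + 2)) F :=
  Polynomial.resultant
    (∑ l : Fin (n + 1), Polynomial.C (((l + 1 : ℕ) : MvPolynomial (Fin (n + 2)) F) * X l.succ) *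
      Polynomial.X ^ (l : ℕ))
    (∑ l : Fin (n + 1), Polynomial.C (((n + 1 - l : ℕ) : MvPolynomial (Fin (n + 2)) F) *
      X l.castSucc) * Polynomial.X ^ (l : ℕ)) n n

/-- The order of contact at the place `P` of the point `g` of projective space with the hypersurface
given by the form `H` of degree `d`. -/
noncomputable def contact {k F L : Type} [Field k] [Field F] [Field L] [Algebra k L] [Algebra F L]
    {N : ℕ} (d : ℕ) (H : MvPolynomial (Fin (N + 1)) F) (g : Fin (N + 1) → L) (P : Place k L) : ℤ :=
  P.ord (aeval g H) - d * pord P g

/-- The zeros in the projective line over `k` of the reduction at the place `P` of the binary form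
`g`; `none` is the point `(0 : 1)` and `some c` is the point `(1 : c)`. -/
def zeros {k L : Type} [Field k] [Field L] [Algebra k L] {n : ℕ} (P : Place k L)
    (g : Fin (n + 1) → L) : Set (Option k) :=
  {z | aeval g (hyp k n (z.elim 0 fun _ => 1) (z.elim 1 id) : MvPolynomial (Fin (n + 1)) k) = 0 ∨
    0 < contact 1 (hyp k n (z.elim 0 fun _ => 1) (z.elim 1 id)) g P}

/-- **Ramified maps to the space of the binary forms.** `X` is the projective variety over the
function field `F` with the generic point `x`, `D` is given by the forms `Q i`, and `y` is a rational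
map from `X` to the space `P^(n + 1)` of the binary forms of degree `n + 1`, whose image is not
contained in the discriminant hypersurface. There are distinct constant points `(u i : v i)` of the
projective line, `i < q`, and weights `α i / m` and `β / m` with `∑ α i / m + 2 n β / m < q - 2`
such that, for the points of `X` over finite extensions `L` of `F`, outside of a proper closed subset
`G = 0`, and for the places `P` of `L` at which the point does not meet `D` and which are not over a
finite set `S` of places of `F`, the number of the multiple zeros of the reduction at `P` of the image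
`g` (the degree `n + 1` minus the number of the distinct zeros) plus the number of the points
`(u i : v i)` which are zeros of the reduction is at most the weighted sum of the orders of contact
of `g` with the hyperplanes of the forms which vanish at `(u i : v i)` and with the discriminant
hypersurface. -/
def Ramified (k : Type) {F K : Type} [Field k] [Field F] [Algebra k F] [Field K] [Algebra F K]
    {M n : ℕ} (x : Fin (M + 1) → K) {ι : Type} (Q : ι → MvPolynomial (Fin (M + 1)) F)
    (y : Fin (n + 2) → K) : Prop :=
  aeval y (dsc F n) ≠ 0 ∧ ∃ (q : ℕ) (u v : Fin q → k) (m : ℕ) (α : Fin q → ℕ) (β : ℕ)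
    (S : Finset (Place k F)) (G : MvPolynomial (Fin (M + 1)) F),
    (∀ i, u i ≠ 0 ∨ v i ≠ 0) ∧ (∀ i j, i ≠ j → u i * v j ≠ u j * v i) ∧
    (∀ i, aeval y (hyp F (n + 1) (u i) (v i)) ≠ 0) ∧ IsForm G ∧ val x G ≠ 0 ∧
    ∑ i, α i + 2 * n * β + 2 * m < q * m ∧
    ∀ (L : Type) [Field L] [Algebra k L] [Algebra F L] [IsScalarTower k F L]
      [FiniteDimensional F L] (f : Fin (M + 1) → L) (g : Fin (n + 2) → L),
      InClosure F x y f g → val f G ≠ 0 → aeval g (dsc F n) ≠ 0 →
      (∀ i, aeval g (hyp F (n + 1) (u i) (v i)) ≠ 0) →
      ∀ P : Place k L, (∀ w ∈ S, ¬ Over P w) → ¬ Meets Q f P →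
        (m : ℤ) * ((n : ℤ) + 1 - (zeros P g).ncard +
          {i | 0 < contact 1 (hyp F (n + 1) (u i) (v i)) g P}.ncard) ≤
            ∑ i, α i * contact 1 (hyp F (n + 1) (u i) (v i)) g P +
              β * contact (2 * n) (dsc F n) g P

/-- The height of the images of the points under the rational map `y` from the pair `(X, D)` is
bounded in terms of the genus and of the number of the places at which the point meets `D`. -/
def HeightBound (k : Type) {F K : Type} [Field k] [Field F] [Algebra k F] [Field K] [Algebra F K]
    {M N : ℕ} (x : Fin (M + 1) → K) {ι : Type} (Q : ι → MvPolynomial (Fin (M + 1)) F)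
    (y : Fin (N + 1) → K) : Prop :=
  ∃ G : MvPolynomial (Fin (M + 1)) F, IsForm G ∧ val x G ≠ 0 ∧ ∃ A C : ℕ,
    ∀ (L : Type) [Field L] [Algebra k L] [Algebra F L] [IsScalarTower k F L]
      [FiniteDimensional F L] (f : Fin (M + 1) → L) (g : Fin (N + 1) → L),
      InClosure F x y f g → val f G ≠ 0 → (∃ i, aeval f (Q i) ≠ 0) →
        pht k g ≤ A * (canDeg k L + {P : Place k L | Meets Q f P}.ncard) +
          C * Module.finrank F L

end Pool.Agent.H910.Vf
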