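import Pool.Agent.H910.Vf.Num
import Mathlib.LinearAlgebra.Vandermonde

/-!
Examples of ramified maps to the space of the binary forms.
-/

set_option autoImplicit false
set_option linter.unusedSectionVars false
set_option linter.unusedVariables false
set_option linter.overlappingInstances false

open FF MvPolynomial Pool.Agent.W603.LV Pool.Agent.W603.PV
open Pool.Agent.W602.GT (val IsForm coords val_smul LogGeneralType)
open Pool.Agent.H916
open Pool.Agent.Y216 (OnVar)

namespace Pool.Agent.H910.Vf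

open Pool.Agent.Y216 Pool.Agent.H910.Dsc Pool.Agent.H910.Ff

section kum

variable {k F K : Type} [Field k] [IsAlgClosed k] [CharZero k] [Field F] [Field K]
  [Algebra k F] [IsFF k F] [Algebra F K] {M : ℕ} {x : Fin (M + 1) → K}
  {ι : Type} [Finite ι] {Q : ι → MvPolynomial (Fin (M + 1)) F}

/-- Cyclic coverings. -/
theorem ramified_cyclic (hx : x ≠ 0) (hgen : coords F x = ⊤) (hQ : ∀ i, IsForm (Q i))
    {n q : ℕ} {y : Fin (n + 2) → K} {u v : Fin q → k} (h0 : ∀ i, u i ≠ 0 ∨ v i ≠ 0)
    (huv : ∀ i j, i ≠ j → u i * v j ≠ u j * v i) (hdy : aeval y (dsc F n) ≠ 0)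
    (hvy : ∀ i, aeval y (hyp F (n + 1) (u i) (v i)) ≠ 0)
    {μ : ℕ} {c : Fin q → ℕ} {d : ℕ} {l : F} {w : K}
    (hl : l ≠ 0) (hc : ∀ i, 0 < c i) (hd : 0 < d) (hdeg : μ ∣ ∑ i, c i + 2 * n * d)
    (hw : w ^ μ = algebraMap F K l *
      (∏ i, aeval y (hyp F (n + 1) (u i) (v i)) ^ c i) * aeval y (dsc F n) ^ d)
    (hpos : (n + 1) * (∑ i, c i + 2 * n * d) + 2 * μ < q * μ) : Ramified k x Q y := by
  have hμ : 0 < μ := by
    by_contra h
    have : μ = 0 := by omega
    subst this
    simp at hpos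
  refine ramified_of_numeric (r := 1) (m := μ) (α := fun i => (n + 1) * c i) (β := (n + 1) * d)
    (μ := fun _ => μ) (c := fun _ => c) (d := fun _ => d) (l := fun _ => l) (w := fun _ => w)
    hx hgen hQ h0 huv hdy hvy (fun _ => hμ) (fun _ => hl) (fun _ => hdeg) (fun _ => hw) ∅
    (fun i hi => absurd hi (Set.notMem_empty _)) False (fun h => h.elim) ?_ ?_
  · rw [← Finset.mul_sum]
    have e : (n + 1) * ∑ i, c i + 2 * n * ((n + 1) * d) + 2 * μ =
        (n + 1) * (∑ i, c i + 2 * n * d) + 2 * μ := by ring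
    rw [e]
    exact hpos
  · intro s t h1 _ _ _
    have h2 := h1 0
    obtain ⟨e, he⟩ := h2
    have h3 : ∑ i, (n + 1) * c i * s i + (n + 1) * d * t = (n + 1) * (μ * e) := by
      rw [← he, mul_add, Finset.mul_sum]
      congr 1
      · exact Finset.sum_congr rfl fun i _ => by ring
      · ring
    rw [h3]
    rcases Nat.eq_zero_or_pos e with h4 | h4
    · subst h4
      rw [mul_zero] at he
      have h5 : ∑ i, c i * s i = 0 := by omega
      have h6 : d * t = 0 := by omega
      have ht : t = 0 := by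
        rcases Nat.mul_eq_zero.1 h6 with h7 | h7
        · omega
        · exact h7
      have hs : ∀ i, s i = 0 := by
        intro i
        have h7 := Finset.sum_eq_zero_iff.1 h5 i (Finset.mem_univ _)
        rcases Nat.mul_eq_zero.1 h7 with h8 | h8
        · have := hc i
          omega
        · exact h8
      have h7 : {i | s i ≠ 0} = ∅ := by
        ext i
        simp [hs i]
      rw [ht, h7, Set.ncard_empty]
      simp
    · calc μ * min (n + 1) (t + {i | s i ≠ 0}.ncard) ≤ μ * (n + 1) :=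
            Nat.mul_le_mul_left _ (min_le_left _ _)
        _ = (n + 1) * (μ * 1) := by ring
        _ ≤ (n + 1) * (μ * e) := by gcongr; omega

end kum

section powers

variable {k F : Type} [Field k] [IsAlgClosed k] [CharZero k] [Field F] [Algebra k F] [IsFF k F]

/-- interpolation -/
theorem exists_interp {n m : ℕ} {u v : Fin (n + 2) → k}
    (huv : ∀ i j, i ≠ j → u i * v j ≠ u j * v i) (l : Fin (n + 2) → F) :
    ∃ Y : Fin (n + 2) → MvPolynomial (Fin (n + 2)) F, (∀ j, (Y j).IsHomogeneous m) ∧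
      ∀ i, aeval Y (hyp F (n + 1) (u i) (v i)) = C (l i) * X i ^ m := by
  classical
  obtain ⟨A, hA⟩ : ∃ A : Matrix (Fin (n + 2)) (Fin (n + 2)) k, A = Matrix.projVandermonde v u :=
    ⟨_, rfl⟩
  have hdet : IsUnit A.det := by
    rw [hA, Matrix.det_projVandermonde, isUnit_iff_ne_zero]
    refine Finset.prod_ne_zero_iff.2 fun i _ => Finset.prod_ne_zero_iff.2 fun j hj => ?_
    rw [Finset.mem_Ioi] at hj
    have := huv i j hj.ne
    intro h
    apply this
    linear_combination h
  have hmul := Matrix.mul_nonsing_inv A hdet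
  refine ⟨fun j => ∑ i, C (algebraMap k F (A⁻¹ j i)) * (C (l i) * X i ^ m), fun j => ?_,
    fun i => ?_⟩
  · refine IsHomogeneous.sum _ _ _ fun i _ => ?_
    have h1 := (isHomogeneous_C (Fin (n + 2)) (algebraMap k F (A⁻¹ j i))).mul
      ((isHomogeneous_C (Fin (n + 2)) (l i)).mul ((isHomogeneous_X F i).pow m))
    rwa [zero_add, zero_add, one_mul] at h1
  · obtain ⟨Z, hZ⟩ : ∃ Z : Fin (n + 2) → MvPolynomial (Fin (n + 2)) F,
        Z = fun i => C (l i) * X i ^ m := ⟨_, rfl⟩
    have hZi : ∀ i, C (l i) * X i ^ m = Z i := fun i => by rw [hZ]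
    simp only [hZi]
    have h2 : ∀ b : Fin (n + 2), u i ^ (n + 1 - (b : ℕ)) * v i ^ (b : ℕ) = A i b := by
      intro b
      rw [hA, Matrix.projVandermonde_apply]
      have h2 : ((b.rev : Fin (n + 2)) : ℕ) = n + 1 - (b : ℕ) := by
        rw [Fin.val_rev]
        omega
      rw [h2, mul_comm]
    have h3 : aeval (fun j => ∑ i, C (algebraMap k F (A⁻¹ j i)) * Z i)
        (hyp F (n + 1) (u i) (v i)) = ∑ b : Fin (n + 2), C (algebraMap k F (A i b)) *
          ∑ i, C (algebraMap k F (A⁻¹ b i)) * Z i := by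
      unfold hyp
      rw [map_sum]
      refine Finset.sum_congr rfl fun b _ => ?_
      rw [h2, map_mul, aeval_C, aeval_X, MvPolynomial.algebraMap_eq]
    rw [h3]
    simp only [Finset.mul_sum]
    rw [Finset.sum_comm]
    have h1 : ∀ a : Fin (n + 2), ∑ b : Fin (n + 2), C (algebraMap k F (A i b)) *
          (C (algebraMap k F (A⁻¹ b a)) * Z a) =
        C (algebraMap k F ((A * A⁻¹) i a)) * Z a := by
      intro a
      rw [Matrix.mul_apply, map_sum, map_sum, Finset.sum_mul]
      refine Finset.sum_congr rfl fun b _ => ?_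
      rw [map_mul (algebraMap k F), map_mul C, ← mul_assoc]
    rw [Finset.sum_congr rfl fun a _ => h1 a, hmul]
    rw [Finset.sum_eq_single i]
    · rw [Matrix.one_apply_eq, map_one, map_one, one_mul]
    · intro a _ ha
      rw [Matrix.one_apply_ne (Ne.symm ha), map_zero, map_zero, zero_mul]
    · intro h
      exact absurd (Finset.mem_univ _) h

/-- **The complement of the preimage of the discriminant hypersurface under a power map.** -/
theorem powers {n m : ℕ} (hm : 0 < m) {u v : Fin (n + 2) → k} (h0 : ∀ i, u i ≠ 0 ∨ v i ≠ 0)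
    (huv : ∀ i j, i ≠ j → u i * v j ≠ u j * v i) {l : Fin (n + 2) → F} (hl : ∀ i, l i ≠ 0)
    {Y : Fin (n + 2) → MvPolynomial (Fin (n + 2)) F} (hY : ∀ j, (Y j).IsHomogeneous m)
    (hYl : ∀ i, aeval Y (hyp F (n + 1) (u i) (v i)) = C (l i) * X i ^ m) :
    ∃ C0 : ℕ, ∀ (L : Type) [Field L] [Algebra k L] [Algebra F L] [IsScalarTower k F L]
      [FiniteDimensional F L] (f : Fin (n + 2) → L), (∀ i, f i ≠ 0) →
      aeval f (aeval Y (dsc F n)) ≠ 0 →
      ((m : ℤ) * n - n - 2) * pht k f ≤ (n + 1) * (canDeg k L +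
        {P : Place k L | Meets (fun _ : Unit => aeval Y (dsc F n)) f P}.ncard) +
          C0 * Module.finrank F L := by
  classical
  obtain ⟨S, hS⟩ := exists_places (k := k) (Finset.univ.image l)
  obtain ⟨C2, hC2⟩ := over_card.{0, 0, 0} (k := k) S
  refine ⟨(n + 1) * (C2 + 2) + (m * n) * (∑ i, hgt k (l i)).toNat, fun L _ _ _ _ _ f hf hd => ?_⟩
  have hff : IsFF k L := isFF_of_finite (k := k) (F := F) (L := L)
  obtain ⟨g, hg⟩ : ∃ g : Fin (n + 2) → L, g = fun j => aeval f (Y j) := ⟨_, rfl⟩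
  have hgd : aeval g (dsc F n) = aeval f (aeval Y (dsc F n)) := by
    have h3 := val_comp0 f Y (dsc F n)
    unfold Pool.Agent.W602.GT.val at h3
    rw [h3, hg]
  have hgv : ∀ i, vl (u i) (v i) g = algebraMap F L (l i) * f i ^ m := by
    intro i
    rw [← hyp_eq (F := F)]
    have h3 := val_comp0 f Y (hyp F (n + 1) (u i) (v i))
    unfold Pool.Agent.W602.GT.val at h3
    rw [hg, ← h3, hYl, map_mul, aeval_C, map_pow, aeval_X]
  have hl' : ∀ i, algebraMap F L (l i) ≠ 0 := fun i => (_root_.map_ne_zero _).2 (hl i)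
  have hgv0 : ∀ i, vl (u i) (v i) g ≠ 0 := fun i => by
    rw [hgv]
    exact mul_ne_zero (hl' i) (pow_ne_zero _ (hf i))
  have hg0 : ∃ j, g j ≠ 0 := by
    by_contra hcon
    push Not at hcon
    apply hgv0 0
    unfold vl
    exact Finset.sum_eq_zero fun j _ => by rw [hcon, mul_zero]
  have hf0 : ∃ j, f j ≠ 0 := ⟨0, hf 0⟩
  have hgd0 : dsf n (pol g) ≠ 0 := by
    rw [← dsc_eq (F := F), hgd]
    exact hd
  -- the orders
  have hord : ∀ i, ∀ P : Place k L, P.ord (vl (u i) (v i) g) =
      P.ord (algebraMap F L (l i)) + m * P.ord (f i) := by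
    intro i P
    rw [hgv, P.ord_mul (hl' i) (pow_ne_zero _ (hf i)), P.ord_pow]
  have hone : ∀ P : Place k L, ∃ i, P.ord (vl (u i) (v i) g) = pord P g := by
    intro P
    have h1 := mt_le h0 huv P hg0
    have h2 := zst_le P hg0
    have h3 : (Pool.Agent.H910.Ff.mt u v P g).card < (Finset.univ : Finset (Fin (n + 2))).card := by
      rw [Finset.card_univ, Fintype.card_fin]
      omega
    obtain ⟨i, _, hi⟩ := Finset.exists_mem_notMem_of_card_lt_card h3
    refine ⟨i, ?_⟩
    unfold Pool.Agent.H910.Ff.mt at hi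
    rw [Finset.mem_filter] at hi
    push Not at hi
    have h4 := hi (Finset.mem_univ _) (hgv0 i)
    exact le_antisymm h4 (pord_nonneg_contact P (hgv0 i))
  have hpord : ∀ P : Place k L, (∀ w ∈ S, ¬ Over P w) → pord P g = m * pord P f := by
    intro P hP
    have hl0 : ∀ i, P.ord (algebraMap F L (l i)) = 0 := fun i =>
      hS L P hP (l i) (Finset.mem_image_of_mem _ (Finset.mem_univ _))
    refine le_antisymm ?_ ?_
    · obtain ⟨j, _, hj⟩ := exists_pord P hf0
      have h1 := pord_nonneg_contact P (hgv0 j)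
      rw [hord, hl0, zero_add, hj] at h1
      exact h1
    · obtain ⟨i, hi⟩ := hone P
      rw [← hi, hord, hl0, zero_add]
      exact mul_le_mul_of_nonneg_left (pord_le P (hf i)) (Int.natCast_nonneg _)
  obtain ⟨hSfin, hScard⟩ := hC2 L
  have hmfin : {P : Place k L | Meets (fun _ : Unit => aeval Y (dsc F n)) f P}.Finite :=
    meets_finite (k := k) hf0 ⟨(), hd⟩
  have h1 := bound_field' (m := m) (α := fun _ => 1) (β := 0) h0 huv hg0 hgd0 hgv0
    (hSfin.toFinset ∪ hmfin.toFinset) fun P hP => by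
      rw [Finset.mem_union, not_or, Set.Finite.mem_toFinset, Set.Finite.mem_toFinset] at hP
      obtain ⟨hP1, hP2⟩ := hP
      have hP1' : ∀ w ∈ S, ¬ Over P w := fun w hw ho => hP1 ⟨w, hw, ho⟩
      have hpg := hpord P hP1'
      have hl0 : ∀ i, P.ord (algebraMap F L (l i)) = 0 := fun i =>
        hS L P hP1' (l i) (Finset.mem_image_of_mem _ (Finset.mem_univ _))
      -- the contact with the discriminant
      have hct : P.ord (dsf n (pol g)) - 2 * n * pord P g ≤ 0 := by
        have h3 : ¬ Meets (fun _ : Unit => aeval Y (dsc F n)) f P := hP2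
        unfold Meets at h3
        push Not at h3
        obtain ⟨-, -, h4⟩ := h3
        have h5 : aeval Y (dsc F n) ≠ 0 := fun h6 => hd (by rw [h6, map_zero])
        have h6 : (aeval Y (dsc F n) : MvPolynomial (Fin (n + 2)) F).IsHomogeneous (m * (2 * n)) :=
          (dsc_hom F n).aeval Y hY
        rw [h6.totalDegree h5, ← hgd, dsc_eq] at h4
        rw [hpg]
        push_cast at h4
        linarith
      have hz := zst_ge P hg0 hgd0
      have hz' := zst_le P hg0
      have h3 : ((zst P g).ncard : ℤ) = n + 1 := by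
        push_cast at hz
        omega
      rw [h3, sub_self, zero_add]
      push_cast
      rw [zero_mul, add_zero]
      simp only [one_mul]
      rw [Finset.card_eq_sum_ones]
      push_cast
      rw [Finset.mul_sum]
      refine (Finset.sum_le_sum fun i hi => ?_).trans
        (Finset.sum_le_sum_of_subset_of_nonneg (Finset.subset_univ _) fun i _ _ => ?_)
      · unfold Pool.Agent.H910.Ff.mt at hi
        rw [Finset.mem_filter] at hi
        obtain ⟨-, -, h4⟩ := hi
        rw [hord, hl0, zero_add, hpg] at h4 ⊢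
        have h5 : pord P f < P.ord (f i) := lt_of_mul_lt_mul_left h4 (Int.natCast_nonneg _)
        rw [← mul_sub]
        refine mul_le_mul_of_nonneg_left ?_ (Int.natCast_nonneg _)
        linarith
      · exact sub_nonneg.2 (pord_nonneg_contact P (hgv0 i))
  -- the heights
  have hht : (m : ℤ) * pht k f - ∑ i, hgt k (algebraMap F L (l i)) ≤ pht k g := by
    obtain ⟨T1, hT1⟩ := exists_supp (k := k) Finset.univ f
    obtain ⟨T2, hT2⟩ := exists_supp (k := k) Finset.univ g
    obtain ⟨T3, hT3⟩ := exists_supp (k := k) Finset.univ fun i => algebraMap F L (l i)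
    obtain ⟨T, hT⟩ : ∃ T, T = T1 ∪ T2 ∪ T3 := ⟨_, rfl⟩
    have hs : ∀ {h : Fin (n + 2) → L}, (∃ j, h j ≠ 0) → (∀ j, ∀ P : Place k L, P.ord (h j) ≠ 0 →
        P ∈ T) → ∑ P ∈ T, pord P h = - pht k h := by
      intro h hh hhT
      unfold pht
      rw [neg_neg, finsum_eq_sum_of_support_subset (s := T)]
      intro P hP
      obtain ⟨j, _, hj⟩ := exists_pord P hh
      refine Finset.mem_coe.2 (hhT j P ?_)
      rw [hj]
      exact hP
    have e1 := hs hf0 fun j P hP => by
      have := hT1 j (Finset.mem_univ _) P hP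
      rw [hT]
      simp [this]
    have e2 := hs hg0 fun j P hP => by
      have := hT2 j (Finset.mem_univ _) P hP
      rw [hT]
      simp [this]
    have e3 : ∀ i, ∑ P ∈ T, max (-P.ord (algebraMap F L (l i))) 0 =
        hgt k (algebraMap F L (l i)) := fun i => (hgt_finset _ T fun P hP => by
      have := hT3 i (Finset.mem_univ _) P hP
      rw [hT]
      simp [this]).symm
    have e3' : ∀ i, ∑ P ∈ T, max (P.ord (algebraMap F L (l i))) 0 =
        hgt k (algebraMap F L (l i)) := by
      intro i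
      rw [← e3]
      have h5 := sum_ord_finset (algebraMap F L (l i)) T fun P hP => by
        have := hT3 i (Finset.mem_univ _) P hP
        rw [hT]
        simp [this]
      have h6 : ∑ P ∈ T, max (P.ord (algebraMap F L (l i))) 0 -
          ∑ P ∈ T, max (-P.ord (algebraMap F L (l i))) 0 =
          ∑ P ∈ T, P.ord (algebraMap F L (l i)) := by
        rw [← Finset.sum_sub_distrib]
        refine Finset.sum_congr rfl fun P _ => ?_
        omega
      omega
    have e4 : ∀ P ∈ T, pord P g ≤ m * pord P f + ∑ i, max (P.ord (algebraMap F L (l i))) 0 := by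
      intro P _
      obtain ⟨j, _, hj⟩ := exists_pord P hf0
      have h1 := pord_nonneg_contact P (hgv0 j)
      rw [hord, hj] at h1
      have h2 := Finset.single_le_sum (f := fun i => max (P.ord (algebraMap F L (l i))) 0)
        (fun i _ => le_max_right _ _) (Finset.mem_univ j)
      have h3 := le_max_left (P.ord (algebraMap F L (l j))) 0
      linarith
    have e5 := Finset.sum_le_sum e4
    rw [Finset.sum_add_distrib, ← Finset.mul_sum, e1, e2, Finset.sum_comm,
      Finset.sum_congr rfl fun i _ => e3' i] at e5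
    linarith
  have e6 : ∑ i, hgt k (algebraMap F L (l i)) = Module.finrank F L * ∑ i, hgt k (l i) := by
    rw [Finset.mul_sum]
    exact Finset.sum_congr rfl fun i _ => hgt_algebraMap _
  have e7 : ((∑ i, hgt k (l i)).toNat : ℤ) = ∑ i, hgt k (l i) :=
    Int.toNat_of_nonneg (Finset.sum_nonneg fun c _ => hgt_nonneg _)
  rw [e6, ← e7] at hht
  have h2 : ((hSfin.toFinset ∪ hmfin.toFinset).card : ℤ) ≤ C2 * Module.finrank F L +
      {P : Place k L | Meets (fun _ : Unit => aeval Y (dsc F n)) f P}.ncard := by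
    have h3 := Finset.card_union_le hSfin.toFinset hmfin.toFinset
    rw [← Set.ncard_eq_toFinset_card _ hSfin, ← Set.ncard_eq_toFinset_card _ hmfin] at h3
    have h4 : (((hSfin.toFinset ∪ hmfin.toFinset).card : ℕ) : ℤ) ≤
      ({P : Place k L | ∃ w ∈ S, Over P w}.ncard : ℤ) +
        {P : Place k L | Meets (fun _ : Unit => aeval Y (dsc F n)) f P}.ncard := by
      exact_mod_cast h3
    linarith
  obtain ⟨D, hD⟩ : ∃ D : ℤ, D = Module.finrank F L := ⟨_, rfl⟩
  obtain ⟨B, hB⟩ : ∃ B : ℤ, B = (hSfin.toFinset ∪ hmfin.toFinset).card := ⟨_, rfl⟩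
  obtain ⟨N, hN⟩ : ∃ N : ℤ, N =
    {P : Place k L | Meets (fun _ : Unit => aeval Y (dsc F n)) f P}.ncard := ⟨_, rfl⟩
  obtain ⟨c, hc⟩ : ∃ c : ℤ, c = (∑ i, hgt k (l i)).toNat := ⟨_, rfl⟩
  have hD1 : (1 : ℤ) ≤ D := by
    rw [hD]
    exact_mod_cast (Module.finrank_pos : 0 < Module.finrank F L)
  have hm1 : (1 : ℤ) ≤ m := by exact_mod_cast hm
  have hfh : 0 ≤ pht k f := pht_nonneg' hf0
  have hc0 : 0 ≤ c := by
    rw [hc]
    exact Int.natCast_nonneg _
  rw [← hB] at h1 h2
  rw [← hN] at h2 ⊢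
  rw [← hc] at hht
  rw [← hD] at h2 hht ⊢
  push_cast
  rw [← hc]
  have h3 : (m : ℤ) * ((n + 2 : ℕ) - 2) - ((∑ _i : Fin (n + 2), 1 + 2 * n * 0 : ℕ) : ℤ) =
      m * n - n - 2 := by
    simp
    ring
  rw [h3] at h1
  have hcan : -2 ≤ canDeg k L := canDeg_ge_neg_two
  have hn0 : (0 : ℤ) ≤ n := Int.natCast_nonneg _
  rcases le_or_gt ((m : ℤ) * n - n - 2) 0 with h4 | h4
  · -- trivial case
    have h5 : ((m : ℤ) * n - n - 2) * pht k f ≤ 0 := mul_nonpos_of_nonpos_of_nonneg h4 hfh
    have hN0 : 0 ≤ N := by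
      rw [hN]
      exact Int.natCast_nonneg _
    have h6 : (0 : ℤ) ≤ (n + 1) * (canDeg k L + N + 2 * D) :=
      mul_nonneg (by linarith) (by linarith)
    have h7 : (0 : ℤ) ≤ (n + 1) * C2 * D + m * n * c * D := by positivity
    nlinarith
  · have h5 := mul_le_mul_of_nonneg_left hht h4.le
    have h6 : (m : ℤ) * (n + 1) * (B + (canDeg k L + 2)) ≤
        m * ((n + 1) * (canDeg k L + N + (C2 + 2) * D)) := by
      rw [mul_assoc]
      refine mul_le_mul_of_nonneg_left (mul_le_mul_of_nonneg_left ?_ (by linarith)) (by linarith)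
      linarith
    have h7 : (m : ℤ) * (((m : ℤ) * n - n - 2) * pht k f) ≤
        m * ((n + 1) * (canDeg k L + N + (C2 + 2) * D)) + (m * n - n - 2) * (D * c) := by
      linarith
    have h8 : ((m : ℤ) * n - n - 2) * (D * c) ≤ m * (m * n * (c * D)) := by
      have h9 : (0 : ℤ) ≤ D * c := by positivity
      have h10 : (m : ℤ) * n - n - 2 ≤ m * (m * n) := by nlinarith
      calc ((m : ℤ) * n - n - 2) * (D * c) ≤ (m * (m * n)) * (D * c) :=
            mul_le_mul_of_nonneg_right h10 h9
        _ = m * (m * n * (c * D)) := by ring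
    have h9 : (m : ℤ) * (((m : ℤ) * n - n - 2) * pht k f) ≤
        m * ((n + 1) * (canDeg k L + N + (C2 + 2) * D) + m * n * (c * D)) := by
      linarith
    have h10 := le_of_mul_le_mul_left h9 (by linarith)
    linarith

end powers

end Pool.Agent.H910.Vf
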