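import Pool.Agent.H910.Vf.Crit

/-!
Maps of pairs at almost all places.
-/

set_option autoImplicit false
set_option linter.unusedSectionVars false
set_option linter.unusedVariables false
set_option linter.overlappingInstances false

open FF MvPolynomial Pool.Agent.W603.LV Pool.Agent.W603.PV
open Pool.Agent.W602.GT (val IsForm coords val_smul LogGeneralType)
open Pool.Agent.H916
open Pool.Agent.Y216 (OnVar)

namespace Pool.Agent.H910.Vf

variable {k F K : Type} [Field k] [IsAlgClosed k] [CharZero k] [Field F] [Field K]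
  [Algebra k F] [IsFF k F] [Algebra F K] {M N : ℕ} {x : Fin (M + 1) → K}
  {ι : Type} [Finite ι] {Q : ι → MvPolynomial (Fin (M + 1)) F} {y : Fin (N + 1) → K} {κ : Type}
  [Finite κ] {Q' : κ → MvPolynomial (Fin (N + 1)) F}

/-- A map of pairs maps points which do not meet `D` at `P` to points which do not meet `D'`, for
almost all places. -/
theorem PairMap.places (h : PairMap x Q y Q') (hQ : ∀ i, IsForm (Q i)) (hQ' : ∀ i, IsForm (Q' i)) :
    ∃ S : Finset (Place k F), ∀ (L : Type) [Field L] [Algebra k L] [Algebra F L]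
      [IsScalarTower k F L] [FiniteDimensional F L] (f : Fin (M + 1) → L) (g : Fin (N + 1) → L),
      InClosure F x y f g → (∀ i j, f i ≠ 0 → g j ≠ 0 →
        ∀ Φ : MvPolynomial (Fin (M + 1) ⊕ Fin (N + 1)) F,
        aeval (Sum.elim (fun a => x a / x i) fun b => y b / y j) Φ = 0 →
          aeval (Sum.elim (fun a => f a / f i) fun b => g b / g j) Φ = 0) →
      ∀ P : Place k L, (∀ w ∈ S, ¬ Over P w) → ¬ Meets Q f P → ¬ Meets Q' g P := by
  classical
  cases nonempty_fintype ι
  cases nonempty_fintype κ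
  have hnull : ∀ (a : Fin (M + 1)) (b : Fin (N + 1)) (i : ι), ∃ (n : ℕ)
      (A : κ → MvPolynomial (Fin (M + 1) ⊕ Fin (N + 1)) F), x a ≠ 0 → y b ≠ 0 →
      ∀ (E : Type) [Field E] [Algebra F E] (f : Fin (M + 1) → E) (g : Fin (N + 1) → E),
        (∀ Φ : MvPolynomial (Fin (M + 1) ⊕ Fin (N + 1)) F,
          aeval (Sum.elim (fun c => x c / x a) fun c => y c / y b) Φ = 0 →
          aeval (Sum.elim f g) Φ = 0) →
        aeval f (Q i) ^ n = ∑ᶠ c, aeval (Sum.elim f g) (A c) * aeval g (Q' c) := by
    intro a b i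
    by_cases ha : x a ≠ 0
    · by_cases hb : y b ≠ 0
      · obtain ⟨n, A, hA⟩ := h.null ha hb i
        exact ⟨n, A, fun _ _ => hA⟩
      · exact ⟨0, 0, fun _ h => absurd h hb⟩
    · exact ⟨0, 0, fun h _ => absurd h ha⟩
  choose n A hA using hnull
  -- the coefficients
  let S : Finset F := (Finset.univ : Finset (Fin (M + 1) × Fin (N + 1) × ι × κ)).biUnion fun s =>
    ((A s.1 s.2.1 s.2.2.1 s.2.2.2).support.image fun m => (A s.1 s.2.1 s.2.2.1 s.2.2.2).coeff m)
  have hS : ∀ a b i c m, m ∈ (A a b i c).support → (A a b i c).coeff m ∈ S := by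
    intro a b i c m hm
    refine Finset.mem_biUnion.2 ⟨(a, b, i, c), Finset.mem_univ _, ?_⟩
    exact Finset.mem_image.2 ⟨m, hm, rfl⟩
  obtain ⟨S', hS'⟩ := exists_places (k := k) S
  refine ⟨S', fun L _ _ _ _ _ f g hfg hgr P hP hmf hmg => ?_⟩
  have hff : IsFF k L := isFF_of_finite (k := k) (F := F) (L := L)
  apply hmf
  intro i
  by_cases hi : aeval f (Q i) = 0
  · exact Or.inl hi
  right
  have hon := closure_on hfg
  have hon' := closure_on' hfg
  obtain ⟨a, ha, hao⟩ := exists_pord P hon.1
  obtain ⟨b, hb', hbo⟩ := exists_pord P hon'.1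
  have hrel := hgr a b ha hb'
  have hxa : x a ≠ 0 := by
    intro h0
    have h1 := hrel (X (Sum.inl a)) (by rw [aeval_X, Sum.elim_inl, h0, div_zero])
    rw [aeval_X, Sum.elim_inl, div_self ha] at h1
    exact one_ne_zero h1
  have hyb : y b ≠ 0 := by
    intro h0
    have h1 := hrel (X (Sum.inr b)) (by rw [aeval_X, Sum.elim_inr, h0, div_zero])
    rw [aeval_X, Sum.elim_inr, div_self hb'] at h1
    exact one_ne_zero h1
  have h5 := hA a b i hxa hyb L (fun c => f c / f a) (fun c => g c / g b) hrel
  rw [finsum_eq_sum_of_fintype] at h5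
  -- all terms are in the maximal ideal
  have hu : ∀ s, Ge P 0 ((Sum.elim (fun c => f c / f a) fun c => g c / g b :
      Fin (M + 1) ⊕ Fin (N + 1) → L) s) := by
    rintro (c | c)
    · rw [Sum.elim_inl]
      by_cases hc : f c = 0
      · exact Or.inl (by rw [hc, zero_div])
      · right
        rw [P.ord_div hc ha, hao]
        have := pord_le P hc
        omega
    · rw [Sum.elim_inr]
      by_cases hc : g c = 0
      · exact Or.inl (by rw [hc, zero_div])
      · right
        rw [P.ord_div hc hb', hbo]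
        have := pord_le P hc
        omega
  have h6 : Ge P 1 (∑ c, aeval (Sum.elim (fun c => f c / f a) fun c => g c / g b) (A a b i c) *
        aeval (fun c => g c / g b) (Q' c)) := by
    refine Ge.sum _ _ fun c _ => ?_
    have h7 := ge_aevalF (P := P) hu (A := A a b i c) fun m hm => by
      right
      exact (hS' L P hP _ (hS a b i c m hm)).ge
    have h8 : Ge P 1 (aeval (fun c => g c / g b) (Q' c)) := by
      obtain ⟨d, hd⟩ := hQ' c
      rw [aeval_div hd hb']
      rcases hmg c with h10 | h10
      · exact Or.inl (by rw [h10, zero_div])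
      · by_cases h11 : aeval g (Q' c) = 0
        · exact Or.inl (by rw [h11, zero_div])
        right
        have h12 : Q' c ≠ 0 := by
          intro h0
          rw [h0, map_zero] at h11
          exact h11 rfl
        rw [hd.totalDegree h12] at h10
        rw [P.ord_div h11 (pow_ne_zero _ hb'), P.ord_pow, hbo]
        omega
    simpa using h7.mul h8
  rw [← h5] at h6
  obtain ⟨d, hd⟩ := hQ i
  have hQi : Q i ≠ 0 := by
    intro h0
    rw [h0, map_zero] at hi
    exact hi rfl
  have h9 := aeval_div hd (u := f) ha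
  have h10 : aeval (fun c => f c / f a) (Q i) ≠ 0 := by
    rw [h9]
    exact div_ne_zero hi (pow_ne_zero _ ha)
  have h11 := h6.resolve_left (pow_ne_zero _ h10)
  rw [P.ord_pow] at h11
  have h12 : 0 < P.ord (aeval (fun c => f c / f a) (Q i)) := by
    by_contra h13
    push Not at h13
    have h14 : (n a b i : ℤ) * P.ord (aeval (fun c => f c / f a) (Q i)) ≤ 0 :=
      mul_nonpos_of_nonneg_of_nonpos (Int.natCast_nonneg _) h13
    omega
  rw [h9, P.ord_div hi (pow_ne_zero _ ha), P.ord_pow, hao] at h12
  rw [hd.totalDegree hQi]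
  omega

end Pool.Agent.H910.Vf
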