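import Pool.Agent.H910.Vf.Loc

/-!
A numerical criterion for ramified maps to the space of the binary forms.
-/

set_option autoImplicit false
set_option linter.unusedSectionVars false
set_option linter.unusedVariables false
set_option linter.overlappingInstances false

open FF MvPolynomial Pool.Agent.W603.LV Pool.Agent.W603.PV
open Pool.Agent.W602.GT (val IsForm coords val_smul LogGeneralType)
open Pool.Agent.H916
open Pool.Agent.Y216 (OnVar)

namespace Pool.Agent.H910.Vf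

open Pool.Agent.Y216 Pool.Agent.H910.Dsc Pool.Agent.H910.Ff

variable {k F K : Type} [Field k] [IsAlgClosed k] [CharZero k] [Field F] [Field K]
  [Algebra k F] [IsFF k F] [Algebra F K] {M : ℕ} {x : Fin (M + 1) → K}
  {ι : Type} [Finite ι] {Q : ι → MvPolynomial (Fin (M + 1)) F}

theorem closure_all {N : ℕ} {y : Fin (N + 1) → K} {E : Type} [Field E] [Algebra F E]
    {f : Fin (M + 1) → E} {g : Fin (N + 1) → E} (h : InClosure F x y f g) {j0 : Fin (N + 1)}
    {e : ℕ} {H : Fin (N + 1) → MvPolynomial (Fin (M + 1)) F} (hH : RMap x y j0 e H)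
    (hf : aeval f (H j0) ≠ 0) : ∀ i j, f i ≠ 0 → g j ≠ 0 →
        ∀ Φ : MvPolynomial (Fin (M + 1) ⊕ Fin (N + 1)) F,
        aeval (Sum.elim (fun a => x a / x i) fun b => y b / y j) Φ = 0 →
          aeval (Sum.elim (fun a => f a / f i) fun b => g b / g j) Φ = 0 := by
  obtain ⟨c, hc0, hc⟩ := closure_smul h hH hf
  intro i j hi hj Φ hΦ
  have hj' : aeval f (H j) ≠ 0 := by
    intro h0
    apply hj
    rw [hc, h0, mul_zero]
  have h1 := (hH.graph (closure_on h) hi hj').2.2 Φ hΦ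
  have h2 : (fun b => g b / g j) = fun b => aeval f (H b) / aeval f (H j) := by
    funext b
    rw [hc b, hc j, mul_div_mul_left _ _ hc0]
  rw [h2]
  exact h1

/-- divisibility of contact numbers -/
theorem dvd_contact {L : Type} [Field L] [Algebra k L] [Algebra F L] {n q : ℕ} {u v : Fin q → k}
    {g : Fin (n + 2) → L} {P : Place k L} {μ : ℕ} {c : Fin q → ℕ} {d : ℕ} {l : L} {W : L}
    (hμ : 0 < μ) (hdeg : μ ∣ ∑ i, c i + 2 * n * d) (hl0 : l ≠ 0) (hl : P.ord l = 0)
    (hgd : aeval g (dsc F n) ≠ 0) (hgv : ∀ i, aeval g (hyp F (n + 1) (u i) (v i)) ≠ 0)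
    (hW : W ^ μ = l * (∏ i, aeval g (hyp F (n + 1) (u i) (v i)) ^ c i) *
      aeval g (dsc F n) ^ d) :
    (μ : ℤ) ∣ ∑ i, c i * contact 1 (hyp F (n + 1) (u i) (v i)) g P +
      d * contact (2 * n) (dsc F n) g P := by
  have hp : ∏ i, aeval g (hyp F (n + 1) (u i) (v i)) ^ c i ≠ 0 :=
    Finset.prod_ne_zero_iff.2 fun i _ => pow_ne_zero _ (hgv i)
  have h1 := congrArg P.ord hW
  rw [P.ord_pow, P.ord_mul (mul_ne_zero hl0 hp) (pow_ne_zero _ hgd), P.ord_mul hl0 hp, hl, zero_add,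
    P.ord_pow, Pool.Agent.W602.GT.ord_prod' P _ _ fun i _ => pow_ne_zero _ (hgv i)] at h1
  simp only [P.ord_pow] at h1
  obtain ⟨e, he⟩ := hdeg
  have he' : (∑ i, (c i : ℤ)) + 2 * n * d = μ * e := by exact_mod_cast he
  refine ⟨P.ord W - e * pord P g, ?_⟩
  unfold contact
  simp only [mul_sub, Finset.sum_sub_distrib]
  push_cast
  simp only [one_mul]
  rw [← Finset.sum_mul]
  linear_combination (-1 : ℤ) * h1 - pord P g * he'

/-- **The numerical criterion.** -/
theorem ramified_of_numeric (hx : x ≠ 0) (hgen : coords F x = ⊤) (hQ : ∀ i, IsForm (Q i))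
    {n q r : ℕ} {y : Fin (n + 2) → K} {u v : Fin q → k} (h0 : ∀ i, u i ≠ 0 ∨ v i ≠ 0)
    (huv : ∀ i j, i ≠ j → u i * v j ≠ u j * v i) (hdy : aeval y (dsc F n) ≠ 0)
    (hvy : ∀ i, aeval y (hyp F (n + 1) (u i) (v i)) ≠ 0)
    {μ : Fin r → ℕ} {c : Fin r → Fin q → ℕ} {d : Fin r → ℕ} {l : Fin r → F} {w : Fin r → K}
    (hμ : ∀ a, 0 < μ a) (hl : ∀ a, l a ≠ 0) (hdeg : ∀ a, μ a ∣ ∑ i, c a i + 2 * n * d a)
    (hw : ∀ a, w a ^ μ a = algebraMap F K (l a) *
      (∏ i, aeval y (hyp F (n + 1) (u i) (v i)) ^ c a i) * aeval y (dsc F n) ^ d a)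
    (J : Set (Fin q)) (hJ : ∀ i ∈ J, PairMap x Q y fun _ : Unit => hyp F (n + 1) (u i) (v i))
    (b : Prop) (hb : b → PairMap x Q y fun _ : Unit => dsc F n)
    {m : ℕ} {α : Fin q → ℕ} {β : ℕ} (hpos : ∑ i, α i + 2 * n * β + 2 * m < q * m)
    (hnum : ∀ (s : Fin q → ℕ) (t : ℕ), (∀ a, μ a ∣ ∑ i, c a i * s i + d a * t) →
      (∀ i ∈ J, s i = 0) → (b → t = 0) → {i | s i ≠ 0}.ncard ≤ n + 1 →
      m * min (n + 1) (t + {i | s i ≠ 0}.ncard) ≤ ∑ i, α i * s i + β * t) :
    Ramified k x Q y := by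
  classical
  have hy : y ≠ 0 := by
    intro hcon
    have hq : 0 < q := by
      by_contra hq
      have : q = 0 := by omega
      subst this
      omega
    refine hvy ⟨0, hq⟩ ?_
    unfold hyp
    rw [map_sum]
    refine Finset.sum_eq_zero fun l _ => ?_
    rw [map_mul, aeval_X, hcon, Pi.zero_apply, mul_zero]
  obtain ⟨i0, hi0⟩ := Function.ne_iff.1 hx
  have hi0 : x i0 ≠ 0 := hi0
  obtain ⟨j0, hj0⟩ := Function.ne_iff.1 hy
  have hj0 : y j0 ≠ 0 := hj0
  obtain ⟨e, H, hH, hne, heq⟩ := exists_forms (k := F) hi0 hj0 (by rw [hgen]; exact le_top)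
  have hR : RMap x y j0 e H := ⟨hH, hne, hj0, heq⟩
  -- roots
  have hk : ∀ a, ∃ G : MvPolynomial (Fin (M + 1)) F, IsForm G ∧ val x G ≠ 0 ∧ ∀ (E : Type)
      [Field E] [Algebra F E] (f : Fin (M + 1) → E) (g : Fin (n + 2) → E), InClosure F x y f g →
        val f G ≠ 0 → ∃ W : E, W ^ μ a = algebraMap F E (l a) *
          (∏ i, aeval g (hyp F (n + 1) (u i) (v i)) ^ c a i) * aeval g (dsc F n) ^ d a := by
    intro a
    obtain ⟨e', he'⟩ := hdeg a
    have hhom : (C (l a) * (∏ i, hyp F (n + 1) (u i) (v i) ^ c a i) * dsc F n ^ d a :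
        MvPolynomial (Fin (n + 2)) F).IsHomogeneous (e' * μ a) := by
      have h1 : (∏ i, hyp F (n + 1) (u i) (v i) ^ c a i : MvPolynomial (Fin (n + 2)) F).IsHomogeneous
          (∑ i, c a i) := by
        refine IsHomogeneous.prod _ _ _ fun i _ => ?_
        have := (hyp_hom F (n + 1) (u i) (v i)).pow (c a i)
        rwa [one_mul] at this
      have h2 := ((isHomogeneous_C (Fin (n + 2)) (l a)).mul h1).mul ((dsc_hom F n).pow (d a))
      rw [zero_add, he', mul_comm (μ a) e'] at h2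
      exact h2
    obtain ⟨G, hG, hGx, hGf⟩ := kummer (w := w a) hx hgen hy (hμ a) hhom (by
      rw [hw a, map_mul, map_mul, aeval_C, map_prod, map_pow]
      simp only [map_pow])
    refine ⟨G, hG, hGx, fun E _ _ f g hfg hfG => ?_⟩
    obtain ⟨W, hW⟩ := hGf E f g hfg hfG
    refine ⟨W, ?_⟩
    rw [hW, map_mul, map_mul, aeval_C, map_prod, map_pow]
    simp only [map_pow]
  choose G hG hGx hGf using hk
  obtain ⟨S0, hS0⟩ := exists_places (k := k) (Finset.univ.image l)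
  have hJ' : ∀ i : Fin q, ∃ S : Finset (Place k F), i ∈ J → ∀ (L : Type) [Field L] [Algebra k L]
      [Algebra F L] [IsScalarTower k F L] [FiniteDimensional F L] (f : Fin (M + 1) → L)
      (g : Fin (n + 2) → L), InClosure F x y f g → (∀ i j, f i ≠ 0 → g j ≠ 0 →
        ∀ Φ : MvPolynomial (Fin (M + 1) ⊕ Fin (n + 2)) F,
        aeval (Sum.elim (fun a => x a / x i) fun b => y b / y j) Φ = 0 →
          aeval (Sum.elim (fun a => f a / f i) fun b => g b / g j) Φ = 0) →
      ∀ P : Place k L, (∀ w ∈ S, ¬ Over P w) → ¬ Meets Q f P →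
        ¬ Meets (fun _ : Unit => hyp F (n + 1) (u i) (v i)) g P := by
    intro i
    by_cases hi : i ∈ J
    · obtain ⟨S, hS⟩ := PairMap.places (k := k) (hJ i hi) hQ
        (fun _ => ⟨1, hyp_hom F (n + 1) (u i) (v i)⟩)
      exact ⟨S, fun _ => hS⟩
    · exact ⟨∅, fun h => absurd h hi⟩
  choose SJ hSJ using hJ'
  have hb' : ∃ S : Finset (Place k F), b → ∀ (L : Type) [Field L] [Algebra k L]
      [Algebra F L] [IsScalarTower k F L] [FiniteDimensional F L] (f : Fin (M + 1) → L)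
      (g : Fin (n + 2) → L), InClosure F x y f g → (∀ i j, f i ≠ 0 → g j ≠ 0 →
        ∀ Φ : MvPolynomial (Fin (M + 1) ⊕ Fin (n + 2)) F,
        aeval (Sum.elim (fun a => x a / x i) fun b => y b / y j) Φ = 0 →
          aeval (Sum.elim (fun a => f a / f i) fun b => g b / g j) Φ = 0) →
      ∀ P : Place k L, (∀ w ∈ S, ¬ Over P w) → ¬ Meets Q f P →
        ¬ Meets (fun _ : Unit => dsc F n) g P := by
    by_cases hi : b
    · obtain ⟨S, hS⟩ := PairMap.places (k := k) (hb hi) hQ (fun _ => ⟨2 * n, dsc_hom F n⟩)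
      exact ⟨S, fun _ => hS⟩
    · exact ⟨∅, fun h => absurd h hi⟩
  obtain ⟨Sb, hSb⟩ := hb'
  refine ⟨hdy, q, u, v, m, α, β, S0 ∪ Sb ∪ Finset.univ.biUnion SJ, H j0 * ∏ a, G a, h0, huv, hvy,
    isForm_mul0 ⟨e, hH j0⟩ (isForm_prod0 hG), ?_, hpos, ?_⟩
  · rw [val_mul_ne0, val_prod_ne0]
    exact ⟨hne, hGx⟩
  intro L _ _ _ _ _ f g hfg hfG hgd hgv P hP hmP
  have hff : IsFF k L := isFF_of_finite (k := k) (F := F) (L := L)
  rw [val_mul_ne0, val_prod_ne0] at hfG
  obtain ⟨hf1, hf2⟩ := hfG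
  have hall := closure_all hfg hR hf1
  have hg := (closure_on' hfg).1
  have hP0 : ∀ w ∈ S0, ¬ Over P w := fun w hw => hP w (by simp [hw])
  have hPb : ∀ w ∈ Sb, ¬ Over P w := fun w hw => hP w (by simp [hw])
  have hPJ : ∀ i, ∀ w ∈ SJ i, ¬ Over P w := fun i w hw => hP w (by
    rw [Finset.mem_union]
    exact Or.inr (Finset.mem_biUnion.2 ⟨i, Finset.mem_univ _, hw⟩))
  -- contact numbers
  have hgd' : dsf n (pol g) ≠ 0 := by rwa [← dsc_eq (F := F)]
  have hs0 : ∀ i, 0 ≤ contact 1 (hyp F (n + 1) (u i) (v i)) g P := by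
    intro i
    unfold contact
    rw [hyp_eq]
    push_cast
    rw [one_mul]
    exact sub_nonneg.2 (pord_nonneg_contact P (by rw [← hyp_eq (F := F)]; exact hgv i))
  have hz := zst_ge P hg hgd'
  have hz' := zst_le P hg
  have ht0 : 0 ≤ contact (2 * n) (dsc F n) g P := by
    unfold contact
    rw [dsc_eq]
    push_cast
    omega
  obtain ⟨s, hs⟩ : ∃ s : Fin q → ℕ, ∀ i, (s i : ℤ) =
      contact 1 (hyp F (n + 1) (u i) (v i)) g P :=
    ⟨fun i => (contact 1 (hyp F (n + 1) (u i) (v i)) g P).toNat,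
      fun i => Int.toNat_of_nonneg (hs0 i)⟩
  obtain ⟨t, ht⟩ : ∃ t : ℕ, (t : ℤ) = contact (2 * n) (dsc F n) g P :=
    ⟨(contact (2 * n) (dsc F n) g P).toNat, Int.toNat_of_nonneg ht0⟩
  have hset : {i | 0 < contact 1 (hyp F (n + 1) (u i) (v i)) g P} = {i | s i ≠ 0} := by
    ext i
    rw [Set.mem_ofPred_eq, Set.mem_ofPred_eq, ← hs i]
    omega
  have hset2 : {i | s i ≠ 0}.ncard = (Pool.Agent.H910.Ff.mt u v P g).card := by
    rw [← hset, ← Set.ncard_coe_finset]
    congr 1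
    ext i
    unfold Pool.Agent.H910.Ff.mt
    rw [Finset.mem_coe, Finset.mem_filter]
    unfold contact
    rw [Set.mem_ofPred_eq, hyp_eq]
    have h4 : vl (u i) (v i) g ≠ 0 := by
      rw [← hyp_eq (F := F)]
      exact hgv i
    push_cast
    rw [one_mul, sub_pos]
    exact ⟨fun h => ⟨Finset.mem_univ _, h4, h⟩, fun h => h.2.2⟩
  have hmle := mt_le h0 huv P hg
  have h1 := hnum s t (fun a => by
      obtain ⟨W, hW⟩ := hGf a L f g hfg (hf2 a)
      have h2 := dvd_contact (hμ a) (hdeg a) ((_root_.map_ne_zero _).2 (hl a))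
        (hS0 L P hP0 (l a) (Finset.mem_image_of_mem _ (Finset.mem_univ _))) hgd hgv hW
      simp only [← hs, ← ht] at h2
      exact_mod_cast h2)
    (fun i hi => by
      have h2 := hSJ i hi L f g hfg hall P (hPJ i) hmP
      unfold Meets at h2
      push Not at h2
      obtain ⟨-, -, h3⟩ := h2
      have h4 : hyp F (n + 1) (u i) (v i) ≠ 0 := fun h5 => hgv i (by rw [h5, map_zero])
      rw [(hyp_hom F (n + 1) (u i) (v i)).totalDegree h4] at h3
      have h5 := hs i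
      unfold contact at h5
      omega)
    (fun hbb => by
      have h2 := hSb hbb L f g hfg hall P hPb hmP
      unfold Meets at h2
      push Not at h2
      obtain ⟨-, -, h3⟩ := h2
      have h4 : dsc F n ≠ 0 := fun h5 => hgd (by rw [h5, map_zero])
      rw [(dsc_hom F n).totalDegree h4] at h3
      unfold contact at ht
      omega)
    (by rw [hset2]; omega)
  simp only [← hs, ← ht]
  have h6 : {i | (0 : ℤ) < (s i : ℤ)} = {i | s i ≠ 0} := by
    ext i
    rw [Set.mem_ofPred_eq, Set.mem_ofPred_eq]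
    omega
  rw [zeros_eq, h6]
  have h2 : (m : ℤ) * ((n : ℤ) + 1 - (zst P g).ncard + {i | s i ≠ 0}.ncard) ≤
      (m * min (n + 1) (t + {i | s i ≠ 0}.ncard) : ℕ) := by
    push_cast
    refine mul_le_mul_of_nonneg_left ?_ (Int.natCast_nonneg m)
    have h3 : (t : ℤ) = P.ord (dsf n (pol g)) - 2 * n * pord P g := by
      rw [ht]
      unfold contact
      rw [dsc_eq]
      push_cast
      ring
    have h5 : ((n + 1 : ℕ) : ℤ) - (zst P g).ncard ≤ t := by
      rw [h3]
      exact hz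
    rw [hset2]
    refine le_min ?_ ?_
    · omega
    · omega
  refine h2.trans ?_
  exact_mod_cast h1

end Pool.Agent.H910.Vf
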