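import Pool.Agent.H910.Vf.Asc

/-!
Vojta's inequality from height bounds for rational maps.
-/

set_option autoImplicit false
set_option linter.unusedSectionVars false
set_option linter.unusedVariables false
set_option linter.overlappingInstances false

open FF MvPolynomial Pool.Agent.W603.LV Pool.Agent.W603.PV
open Pool.Agent.W602.GT (val IsForm coords val_smul LogGeneralType)
open Pool.Agent.H916
open Pool.Agent.Y216 (OnVar)

namespace Pool.Agent.H910.Vf

variable {k F : Type} [Field k] [IsAlgClosed k] [CharZero k] [Field F] [Algebra k F] [IsFF k F]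

theorem vojta_of_bounds {K : Type} [Field K] [Algebra F K] {M : ℕ} {x : Fin (M + 1) → K}
    (hx : x ≠ 0) (hgen : coords F x = ⊤) {ι : Type} [Finite ι]
    {Q : ι → MvPolynomial (Fin (M + 1)) F} (hQ : ∀ i, IsForm (Q i))
    (hQx : ∃ i, aeval x (Q i) ≠ 0) {r : ℕ} {N : Fin r → ℕ} {y : ∀ l, Fin (N l + 1) → K}
    (hy : ∀ l, y l ≠ 0) (hfib : LogHypFibres (⨆ l, coords F (y l)).toSubfield (cuspFun x Q))
    (hB : ∀ l, HeightBound k x Q (y l)) : VojtaIneq k x Q := by
  classical
  have hF0 : CharZero F := charZero_of_injective_algebraMap (algebraMap k F).injective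
  let iK : Algebra k K := ((algebraMap F K).comp (algebraMap k F)).toAlgebra
  have tK : IsScalarTower k F K := IsScalarTower.of_algebraMap_eq fun _ => rfl
  have hessF : Algebra.EssFiniteType k F := IsFF.ess
  obtain ⟨s, hs⟩ := IntermediateField.fg_top k F
  obtain ⟨τ, t, ht⟩ : ∃ (τ : ℕ) (t : Fin τ → F), IntermediateField.adjoin k (Set.range t) = ⊤ := by
    refine ⟨s.card, fun i => (s.equivFin.symm i : F), ?_⟩
    have h1 : Set.range (fun i => ((s.equivFin.symm i : s) : F)) = (s : Set F) := by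
      ext z
      constructor
      · rintro ⟨i, rfl⟩
        exact (s.equivFin.symm i).2
      · intro hz
        exact ⟨s.equivFin ⟨z, hz⟩, congrArg Subtype.val (s.equivFin.symm_apply_apply ⟨z, hz⟩)⟩
    rw [h1]
    exact hs
  obtain ⟨j, e, H, hH, G, hG, hGx, hGj, A, hA⟩ :=
    rel_log_rat (k := k) (k0 := F) ht hx hgen hy hQ hQx hfib
  choose G' hG' hG'x A' C' hB' using hB
  obtain ⟨c, hc⟩ := hQx
  refine ⟨G * ∏ l, G' l, isForm_mul0 hG (isForm_prod0 hG'), ?_,
    A * (1 + ∑ l, A' l), A * (2 + ∑ l, C' l + (∑ i, hgt k (t i)).toNat),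
    fun L _ _ _ _ _ v hv hvG hvQ => ?_⟩
  · rw [val_mul_ne0, val_prod_ne0]
    exact ⟨hGx, hG'x⟩
  · rw [val_mul_ne0, val_prod_ne0] at hvG
    obtain ⟨hv1, hv2⟩ := hvG
    have hff : IsFF k L := isFF_of_finite (k := k) (F := F) (L := L)
    have h1 := hA L v hv hv1
    have hn : (1 : ℤ) ≤ Module.finrank F L := by
      exact_mod_cast (Module.finrank_pos : 0 < Module.finrank F L)
    obtain ⟨n, hn'⟩ : ∃ n : ℤ, n = Module.finrank F L := ⟨_, rfl⟩
    obtain ⟨m, hm⟩ : ∃ m : ℤ, m = {P : Place k L | Meets Q v P}.ncard := ⟨_, rfl⟩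
    have hcan : -2 ≤ canDeg k L := canDeg_ge_neg_two
    -- the heights of the images
    have h2 : ∀ l, (pht k fun i => aeval v (H l i)) ≤ A' l * (canDeg k L + m) + C' l * n := by
      intro l
      obtain ⟨a, ha⟩ := hv.1
      have h3 := (hH l).graph hv ha (hGj L v hv hv1 l)
      have h4 : InClosure F x (y l) v fun i => aeval v (H l i) :=
        ⟨a, j l, ha, hGj L v hv hv1 l, h3.2.2⟩
      have h5 := hB' l L v (fun i => aeval v (H l i)) h4 (hv2 l) hvQ
      rw [← hn', ← hm] at h5
      exact h5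
    have h3 : ∑ i, hgt k (algebraMap F L (t i)) = n * ∑ i, hgt k (t i) := by
      rw [Finset.mul_sum, hn']
      exact Finset.sum_congr rfl fun i _ => hgt_algebraMap _
    have h4 : ((∑ i, hgt k (t i)).toNat : ℤ) = ∑ i, hgt k (t i) :=
      Int.toNat_of_nonneg (Finset.sum_nonneg fun c _ => hgt_nonneg _)
    have h5 : ∑ l, (pht k fun i => aeval v (H l i)) ≤
        (∑ l, (A' l : ℤ)) * (canDeg k L + m) + (∑ l, (C' l : ℤ)) * n := by
      refine (Finset.sum_le_sum fun l _ => h2 l).trans (le_of_eq ?_)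
      rw [Finset.sum_mul, Finset.sum_mul, ← Finset.sum_add_distrib]
    have h6 : max (canDeg k L) 0 ≤ canDeg k L + 2 * n := by
      rw [← hn'] at hn
      refine max_le ?_ ?_ <;> linarith
    rw [h3, ← h4] at h1
    refine h1.trans ?_
    rw [← hn', ← hm]
    push_cast
    have h7 : (0 : ℤ) ≤ A := Int.natCast_nonneg _
    have h8 := mul_le_mul_of_nonneg_left (add_le_add (add_le_add h6 (le_refl m)) h5) h7
    nlinarith

end Pool.Agent.H910.Vf
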